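import Mathlib

/-!
# Milman's lemma: flat vectors in subspaces of `c₀`, and a trace estimate
-/

set_option autoImplicit false

namespace Pool.Agent.W685.FS

open Finset Filter Topology

variable {𝕜 : Type*} [RCLike 𝕜]

lemma mil_step {J : Type*} (y v : J → 𝕜) (hy : Tendsto y cofinite (𝓝 0))
    (hv : Tendsto v cofinite (𝓝 0)) (hy1 : ∀ j, ‖y j‖ ≤ 1)
    (hS : ∀ j, ‖y j‖ = 1 → v j = 0) (hv0 : ∃ j, v j ≠ 0) :
    ∃ t : ℝ, (∀ j, ‖y j + (t : 𝕜) * v j‖ ≤ 1) ∧ ∃ j, ‖y j‖ ≠ 1 ∧ ‖y j + (t : 𝕜) * v j‖ = 1 := by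
  obtain ⟨j0, hj0⟩ := hv0
  set A : Set ℝ := {t | 0 ≤ t ∧ ∀ j, ‖y j + (t : 𝕜) * v j‖ ≤ 1} with hA
  have hclosed : IsClosed A := by
    have : A = Set.Ici 0 ∩ ⋂ j, {t : ℝ | ‖y j + (t : 𝕜) * v j‖ ≤ 1} := by
      ext t; simp [hA]
    rw [this]
    refine isClosed_Ici.inter (isClosed_iInter fun j => isClosed_le ?_ continuous_const)
    exact (continuous_const.add ((RCLike.continuous_ofReal).mul continuous_const)).norm
  have hne : (0:ℝ) ∈ A := ⟨le_rfl, fun j => by simpa using hy1 j⟩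
  have hvn : 0 < ‖v j0‖ := norm_pos_iff.mpr hj0
  have hbdd : BddAbove A := by
    refine ⟨2 / ‖v j0‖, ?_⟩
    rintro t ⟨ht0, ht⟩
    rw [le_div_iff₀ hvn]
    have h1 : ‖(t : 𝕜) * v j0‖ ≤ ‖y j0 + (t : 𝕜) * v j0‖ + ‖y j0‖ := by
      calc ‖(t : 𝕜) * v j0‖ = ‖(y j0 + (t : 𝕜) * v j0) - y j0‖ := by rw [add_sub_cancel_left]
        _ ≤ _ := norm_sub_le _ _
    rw [norm_mul, RCLike.norm_ofReal, abs_of_nonneg ht0] at h1
    linarith [ht j0, hy1 j0]
  have hmem := hclosed.csSup_mem ⟨0, hne⟩ hbdd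
  set t := sSup A with ht
  refine ⟨t, hmem.2, ?_⟩
  by_contra hcon
  push Not at hcon
  have hlt : ∀ j, ‖y j‖ ≠ 1 → ‖y j + (t : 𝕜) * v j‖ < 1 :=
    fun j hj => lt_of_le_of_ne (hmem.2 j) (hcon j hj)
  -- away from a finite set everything is small for `t' ≤ t + 1`
  have ht0 : 0 ≤ t := hmem.1
  have hsm : Tendsto (fun j => ‖y j‖ + (t + 1) * ‖v j‖) cofinite (𝓝 0) := by
    have := hy.norm.add ((hv.norm).const_mul (t + 1))
    simpa using this
  have hfin : {j | ¬ (‖y j‖ + (t + 1) * ‖v j‖ < 1)}.Finite := by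
    have := hsm.eventually (gt_mem_nhds (zero_lt_one' ℝ))
    exact this
  have hev : ∀ᶠ t' in 𝓝 t, ∀ j ∈ {j | ¬ (‖y j‖ + (t + 1) * ‖v j‖ < 1)}, ‖y j‖ ≠ 1 →
      ‖y j + ((t' : ℝ) : 𝕜) * v j‖ < 1 := by
    rw [Filter.eventually_all_finite hfin]
    intro j _
    by_cases hj : ‖y j‖ = 1
    · exact Eventually.of_forall fun _ h => absurd hj h
    · have hc : Continuous fun t' : ℝ => ‖y j + (t' : 𝕜) * v j‖ :=
        (continuous_const.add ((RCLike.continuous_ofReal).mul continuous_const)).norm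
      exact ((hc.tendsto t).eventually (gt_mem_nhds (hlt j hj))).mono fun _ h _ => h
  have hev2 : ∀ᶠ t' in 𝓝[>] t, t' ∈ A := by
    filter_upwards [hev.filter_mono nhdsWithin_le_nhds, self_mem_nhdsWithin,
      (eventually_le_nhds (lt_add_one t)).filter_mono nhdsWithin_le_nhds] with t' h1 h2 h3
    have h2' : t < t' := h2
    refine ⟨ht0.trans h2'.le, fun j => ?_⟩
    by_cases hj : ‖y j‖ = 1
    · rw [hS j hj]; simpa using hy1 j
    · by_cases hj2 : ‖y j‖ + (t + 1) * ‖v j‖ < 1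
      · refine (norm_add_le _ _).trans ?_
        rw [norm_mul, RCLike.norm_ofReal, abs_of_nonneg (ht0.trans h2'.le)]
        have := mul_le_mul_of_nonneg_right h3 (norm_nonneg (v j))
        linarith
      · exact (h1 j hj2 hj).le
  obtain ⟨t', h1, h2⟩ := (hev2.and self_mem_nhdsWithin).exists
  exact absurd (le_csSup hbdd h1) (not_le.mpr h2)

lemma exists_ker {V : Type*} [AddCommGroup V] [Module 𝕜 V] {D : ℕ}
    (hD : (D : Cardinal) ≤ Module.rank 𝕜 V) {J : Type*} (l : J → V →ₗ[𝕜] 𝕜) (F : Finset J)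
    (hF : F.card < D) : ∃ w : V, w ≠ 0 ∧ ∀ j ∈ F, l j w = 0 := by
  by_contra hcon
  push Not at hcon
  let f : V →ₗ[𝕜] (Fin F.card → 𝕜) := LinearMap.pi fun j => l (F.equivFin.symm j)
  have hinjf : Function.Injective f := by
    rw [← LinearMap.ker_eq_bot, LinearMap.ker_eq_bot']
    intro w hw
    by_contra hw0
    obtain ⟨j, hj, hj2⟩ := hcon w hw0
    refine hj2 ?_
    have := congrFun hw (F.equivFin ⟨j, hj⟩)
    simpa [f] using this
  have h1 := LinearMap.lift_rank_le_of_injective f hinjf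
  rw [rank_fun'] at h1
  have h2 := (Cardinal.lift_le.mpr hD).trans h1
  simp only [Cardinal.lift_natCast, Fintype.card_fin, Nat.cast_le] at h2
  omega

open Classical in
/-- **Milman's lemma** -/
theorem milman {V : Type*} [AddCommGroup V] [Module 𝕜 V] {J : Type*} (l : J → V →ₗ[𝕜] 𝕜)
    (hc0 : ∀ v, Tendsto (fun j => l j v) cofinite (𝓝 0)) (hinj : ∀ v, (∀ j, l j v = 0) → v = 0)
    (J0 : Finset J) (k : ℕ) (hk : ((k + J0.card : ℕ) : Cardinal) ≤ Module.rank 𝕜 V) :
    ∃ v, (∀ j, ‖l j v‖ ≤ 1) ∧ (∀ j ∈ J0, l j v = 0) ∧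
      ∃ S : Finset J, S.card = k ∧ ∀ j ∈ S, ‖l j v‖ = 1 := by
  induction k with
  | zero => exact ⟨0, by simp, by simp, ∅, by simp, by simp⟩
  | succ k ih =>
    obtain ⟨v, hv1, hv0, S, hSc, hS⟩ := ih (le_trans (by norm_cast; omega) hk)
    -- the set of all unit coordinates
    have hfin : {j | ‖l j v‖ = 1}.Finite := by
      have h1 := (hc0 v).norm
      rw [norm_zero] at h1
      have h2 := h1.eventually (gt_mem_nhds (zero_lt_one' ℝ))
      refine Set.Finite.subset h2 ?_
      intro j hj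
      simp only [Set.mem_ofPred_eq] at hj
      simp [hj]
    set F := hfin.toFinset with hF
    rcases lt_or_ge k F.card with hcard | hcard
    · obtain ⟨S', hS', hS'c⟩ := exists_subset_card_eq (Nat.succ_le_of_lt hcard)
      refine ⟨v, hv1, hv0, S', hS'c, fun j hj => ?_⟩
      have := hS' hj
      simpa [hF] using this
    · -- find a direction
      have hex : ∃ w : V, w ≠ 0 ∧ ∀ j ∈ F ∪ J0, l j w = 0 :=
        exists_ker hk l _ (by have := card_union_le F J0; omega)
      obtain ⟨w, hw0, hw⟩ := hex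
      have hw1 : ∃ j, l j w ≠ 0 := by
        by_contra hcon
        push Not at hcon
        exact hw0 (hinj w hcon)
      obtain ⟨t, ht1, j1, hj1, hj2⟩ := mil_step (fun j => l j v) (fun j => l j w) (hc0 v) (hc0 w)
        hv1 (fun j hj => hw j (mem_union_left _ (by simpa [hF] using hj))) hw1
      have hval : ∀ j, l j (v + (t : 𝕜) • w) = l j v + (t : 𝕜) * l j w := by
        intro j; simp
      have hnot : j1 ∉ S := fun h => hj1 (hS j1 h)
      refine ⟨v + (t : 𝕜) • w, fun j => by rw [hval]; exact ht1 j, fun j hj => ?_,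
        insert j1 S, by rw [card_insert_of_notMem hnot, hSc], fun j hj => ?_⟩
      · rw [hval, hv0 j hj, hw j (mem_union_right _ hj)]; simp
      · rw [hval]
        rcases mem_insert.mp hj with rfl | hj
        · exact hj2
        · rw [hw j (mem_union_left _ (by simpa [hF] using hS j hj)), mul_zero, add_zero]
          exact hS j hj

/-- `T` shrinks some vector of each subspace of dimension at least `d` by the factor `b`. -/
def Shrinks {X Y : Type*} [NormedAddCommGroup X] [NormedSpace 𝕜 X] [NormedAddCommGroup Y]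
    [NormedSpace 𝕜 Y] (T : X →L[𝕜] Y) (d : ℕ) (b : ℝ) : Prop :=
  ∀ E : Submodule 𝕜 X, (d : Cardinal) ≤ Module.rank 𝕜 E → ∃ x ∈ E, x ≠ 0 ∧ ‖T x‖ ≤ b * ‖x‖

section trace
variable {X Y : Type*} [NormedAddCommGroup X] [NormedSpace 𝕜 X] [NormedAddCommGroup Y]
    [NormedSpace 𝕜 Y]

lemma shrink_comp (T : X →L[𝕜] Y) {d : ℕ} {b : ℝ} (hb0 : 0 ≤ b) (hT : Shrinks T d b) {n : ℕ}
    (U : EuclideanSpace 𝕜 (Fin n) →ₗ[𝕜] X) {κ : ℝ} (hU : ∀ a, ‖U a‖ ≤ κ * ‖a‖)
    (W : Y →ₗ[𝕜] EuclideanSpace 𝕜 (Fin n)) {μ : ℝ} (hμ : 0 ≤ μ) (hW : ∀ z, ‖W z‖ ≤ μ * ‖z‖)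
    (F : Submodule 𝕜 (EuclideanSpace 𝕜 (Fin n))) (hF : d ≤ Module.finrank 𝕜 F)
    (hF1 : 1 ≤ Module.finrank 𝕜 F) (hκ : 0 ≤ κ) :
    ∃ v ∈ F, ‖v‖ = 1 ∧ ‖W (T (U v))‖ ≤ κ * μ * b := by
  have key : ∃ v ∈ F, v ≠ 0 ∧ ‖W (T (U v))‖ ≤ κ * μ * b * ‖v‖ := by
    by_cases hinj : ∃ v ∈ F, v ≠ 0 ∧ U v = 0
    · obtain ⟨v, hv, hv0, hUv⟩ := hinj
      exact ⟨v, hv, hv0, by rw [hUv]; simp; positivity⟩
    · push Not at hinj
      have hrank : (d : Cardinal) ≤ Module.rank 𝕜 (F.map U) := by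
        have hinj' : Function.Injective (U.domRestrict F) := by
          rw [← LinearMap.ker_eq_bot, LinearMap.ker_eq_bot']
          rintro ⟨v, hv⟩ hv2
          by_contra h0
          exact hinj v hv (fun h => h0 (by ext1; exact h)) hv2
        have h1 : Module.finrank 𝕜 (F.map U) = Module.finrank 𝕜 F := by
          have := LinearMap.finrank_range_of_inj hinj'
          rwa [LinearMap.range_domRestrict] at this
        rw [← Module.finrank_eq_rank, h1]
        exact_mod_cast hF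
      obtain ⟨x, hx, hx0, hx1⟩ := hT (F.map U) hrank
      obtain ⟨v, hv, rfl⟩ := hx
      refine ⟨v, hv, fun h => hx0 (by rw [h, map_zero]), ?_⟩
      calc ‖W (T (U v))‖ ≤ μ * ‖T (U v)‖ := hW _
        _ ≤ μ * (b * (κ * ‖v‖)) := by
            refine mul_le_mul_of_nonneg_left (hx1.trans ?_) hμ
            exact mul_le_mul_of_nonneg_left (hU v) hb0
        _ = _ := by ring
  obtain ⟨v, hv, hv0, hv1⟩ := key
  have hn : ‖v‖ ≠ 0 := norm_ne_zero_iff.mpr hv0
  refine ⟨((‖v‖⁻¹ : ℝ) : 𝕜) • v, F.smul_mem _ hv, ?_, ?_⟩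
  · rw [norm_smul, RCLike.norm_ofReal, abs_inv, abs_norm, inv_mul_cancel₀ hn]
  · simp only [map_smul]
    rw [norm_smul, RCLike.norm_ofReal, abs_inv, abs_norm, inv_mul_le_iff₀ (by positivity)]
    linarith

lemma exists_orth (T : X →L[𝕜] Y) {d : ℕ} (hd : 1 ≤ d) {b : ℝ} (hb0 : 0 ≤ b)
    (hT : Shrinks T d b) {n : ℕ}
    (U : EuclideanSpace 𝕜 (Fin n) →ₗ[𝕜] X) {κ : ℝ} (hκ : 0 ≤ κ) (hU : ∀ a, ‖U a‖ ≤ κ * ‖a‖)
    (W : Y →ₗ[𝕜] EuclideanSpace 𝕜 (Fin n)) {μ : ℝ} (hμ : 0 ≤ μ) (hW : ∀ z, ‖W z‖ ≤ μ * ‖z‖)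
    (k : ℕ) (hk : k + d ≤ n + 1) :
    ∃ v : Fin n → EuclideanSpace 𝕜 (Fin n),
      Orthonormal 𝕜 (({i | i.val < k} : Set (Fin n)).domRestrict v) ∧
      ∀ i : Fin n, i.val < k → ‖W (T (U (v i)))‖ ≤ κ * μ * b := by
  induction k with
  | zero =>
    refine ⟨0, ?_, fun i hi => absurd hi (by omega)⟩
    have : IsEmpty ({i | i.val < 0} : Set (Fin n)) := ⟨fun x => by simpa using x.2⟩
    constructor
    · intro i; exact this.elim i
    · intro i; exact this.elim i
  | succ k ih =>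
    obtain ⟨v, hv, hv1⟩ := ih (by omega)
    have hkn : k < n := by omega
    set G : Submodule 𝕜 (EuclideanSpace 𝕜 (Fin n)) :=
      Submodule.span 𝕜 (v '' {i | i.val < k}) with hG
    have hGr : Module.finrank 𝕜 G ≤ k := by
      have h1 : (v '' {i : Fin n | i.val < k}) =
          ((univ.filter (fun i : Fin n => i.val < k)).image v : Finset _) := by
        ext x; simp
      rw [hG, h1]
      refine (finrank_span_finset_le_card _).trans (card_image_le.trans ?_)
      have : (univ.filter (fun i : Fin n => i.val < k)) ⊆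
          (univ : Finset (Fin k)).image (fun i => (⟨i.val, by omega⟩ : Fin n)) := by
        intro i hi
        simp only [mem_filter, mem_univ, true_and] at hi
        simp only [mem_image, mem_univ, true_and]
        exact ⟨⟨i.val, hi⟩, rfl⟩
      refine (card_le_card this).trans (card_image_le.trans ?_)
      simp
    have hGo : n ≤ Module.finrank 𝕜 Gᗮ + k := by
      have := G.finrank_add_finrank_orthogonal
      rw [finrank_euclideanSpace_fin] at this
      omega
    obtain ⟨w, hw, hw1, hw2⟩ := shrink_comp T hb0 hT U hU W hμ hW Gᗮ (by omega) (by omega) hκ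
    refine ⟨Function.update v ⟨k, hkn⟩ w, ?_, ?_⟩
    · have hin : ∀ i : Fin n, i.val < k → inner 𝕜 (v i) w = 0 := by
        intro i hi
        exact (Submodule.mem_orthogonal G w).mp hw _
          (Submodule.subset_span ⟨i, hi, rfl⟩)
      rw [orthonormal_iff_ite] at hv ⊢
      rintro ⟨i, hi⟩ ⟨j, hj⟩
      simp only [Set.mem_ofPred_eq] at hi hj
      simp only [Set.domRestrict_apply]
      by_cases hik : i = ⟨k, hkn⟩
      · by_cases hjk : j = ⟨k, hkn⟩
        · subst hik; subst hjk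
          simp only [Function.update_self, if_true]
          rw [inner_self_eq_norm_sq_to_K, hw1]; simp
        · have hj' : j.val < k := by
            have : j.val ≠ k := fun h => hjk (Fin.ext h)
            omega
          subst hik
          rw [Function.update_self, Function.update_of_ne hjk, if_neg]
          · rw [← inner_conj_symm, hin j hj', map_zero]
          · intro h; exact hjk (Subtype.ext_iff.mp h).symm
      · have hi' : i.val < k := by
          have : i.val ≠ k := fun h => hik (Fin.ext h)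
          omega
        by_cases hjk : j = ⟨k, hkn⟩
        · subst hjk
          rw [Function.update_self, Function.update_of_ne hik, if_neg]
          · exact hin i hi'
          · intro h; exact hik (Subtype.ext_iff.mp h)
        · have hj' : j.val < k := by
            have : j.val ≠ k := fun h => hjk (Fin.ext h)
            omega
          rw [Function.update_of_ne hik, Function.update_of_ne hjk]
          have := hv ⟨i, hi'⟩ ⟨j, hj'⟩
          simp only [Set.domRestrict_apply, Subtype.mk.injEq] at this ⊢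
          exact this
    · intro i hi
      by_cases hik : i = ⟨k, hkn⟩
      · rw [hik, Function.update_self]; exact hw2
      · rw [Function.update_of_ne hik]
        refine hv1 i ?_
        have : i.val ≠ k := fun h => hik (Fin.ext h)
        omega

/-- **the trace estimate** -/
theorem trace_bound (T : X →L[𝕜] Y) {d : ℕ} (hd : 1 ≤ d) {b : ℝ} (hb0 : 0 ≤ b)
    (hT : Shrinks T d b) {n : ℕ}
    (U : EuclideanSpace 𝕜 (Fin n) →ₗ[𝕜] X) {κ : ℝ} (hκ : 0 ≤ κ) (hU : ∀ a, ‖U a‖ ≤ κ * ‖a‖)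
    (W : Y →ₗ[𝕜] EuclideanSpace 𝕜 (Fin n)) {μ : ℝ} (hμ : 0 ≤ μ) (hW : ∀ z, ‖W z‖ ≤ μ * ‖z‖) :
    ‖LinearMap.trace 𝕜 _ (W ∘ₗ T.toLinearMap ∘ₗ U)‖ ≤ κ * μ * (n * b + d * ‖T‖) := by
  set M := W ∘ₗ T.toLinearMap ∘ₗ U with hM
  have hMb : ∀ v, ‖M v‖ ≤ κ * μ * ‖T‖ * ‖v‖ := by
    intro v
    calc ‖M v‖ ≤ μ * ‖T (U v)‖ := hW _
      _ ≤ μ * (‖T‖ * (κ * ‖v‖)) := by
          refine mul_le_mul_of_nonneg_left ((T.le_opNorm _).trans ?_) hμ
          exact mul_le_mul_of_nonneg_left (hU v) (norm_nonneg _)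
      _ = _ := by ring
  obtain ⟨k, hk, hkd⟩ : ∃ k, (k = 0 ∨ k + d ≤ n + 1) ∧ n ≤ k + d := by
    rcases le_total n d with h | h
    · exact ⟨0, Or.inl rfl, by omega⟩
    · exact ⟨n - d, Or.inr (by omega), by omega⟩
  have hex : ∃ v : Fin n → EuclideanSpace 𝕜 (Fin n),
      Orthonormal 𝕜 (({i | i.val < k} : Set (Fin n)).domRestrict v) ∧
      ∀ i : Fin n, i.val < k → ‖W (T (U (v i)))‖ ≤ κ * μ * b := by
    rcases hk with rfl | hk
    · refine ⟨0, ?_, fun i hi => absurd hi (by omega)⟩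
      have : IsEmpty ({i | i.val < 0} : Set (Fin n)) := ⟨fun x => by simpa using x.2⟩
      constructor
      · intro i; exact this.elim i
      · intro i; exact this.elim i
    · exact exists_orth T hd hb0 hT U hκ hU W hμ hW k hk
  obtain ⟨v, hv, hv1⟩ := hex
  obtain ⟨e, he⟩ := hv.exists_orthonormalBasis_extension_of_card_eq (by simp)
  rw [LinearMap.trace_eq_sum_inner M e]
  have h1 : ∀ i : Fin n, ‖inner 𝕜 (e i) (M (e i))‖ ≤
      κ * μ * b + (if i.val < k then 0 else κ * μ * ‖T‖) := by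
    intro i
    refine (norm_inner_le_norm _ _).trans ?_
    rw [e.orthonormal.1 i, one_mul]
    split_ifs with hi
    · rw [he i hi, add_zero]; exact hv1 i hi
    · have := hMb (e i)
      rw [e.orthonormal.1 i, mul_one] at this
      have h3 : 0 ≤ κ * μ * b := by positivity
      linarith
  refine (norm_sum_le _ _).trans ((sum_le_sum fun i _ => h1 i).trans ?_)
  rw [sum_add_distrib, sum_const, card_univ, Fintype.card_fin, nsmul_eq_mul, sum_ite,
    sum_const_zero, zero_add, sum_const, nsmul_eq_mul]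
  have h2 : ((univ.filter (fun i : Fin n => ¬ i.val < k)).card : ℝ) ≤ d := by
    have : (univ.filter (fun i : Fin n => ¬ i.val < k)).card ≤ d := by
      have h3 : (univ.filter (fun i : Fin n => ¬ i.val < k)).card + 
          (univ.filter (fun i : Fin n => i.val < k)).card = n := by
        rw [add_comm, card_filter_add_card_filter_not]; simp
      have h4 : min k n ≤ (univ.filter (fun i : Fin n => i.val < k)).card := by
        have : (univ : Finset (Fin (min k n))).image (fun i => (⟨i.val, by omega⟩ : Fin n)) ⊆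
            (univ.filter (fun i : Fin n => i.val < k)) := by
          intro i hi
          simp only [mem_image, mem_univ, true_and] at hi
          obtain ⟨a, rfl⟩ := hi
          simp only [mem_filter, mem_univ, true_and]
          omega
        refine le_trans (le_of_eq ?_) (card_le_card this)
        rw [card_image_of_injective]
        · simp
        · intro a b hab
          simpa [Fin.ext_iff] using hab
      omega
    exact_mod_cast this
  have h5 : 0 ≤ κ * μ * ‖T‖ := by positivity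
  nlinarith [mul_le_mul_of_nonneg_right h2 h5]

end trace

end Pool.Agent.W685.FS
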