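import Pool.Agent.W685.FS.Sys
import Pool.Agent.W685.FS.Mil

/-!
# Blocks in `ℓ_p`
-/

set_option autoImplicit false
set_option linter.unusedSectionVars false

namespace Pool.Agent.W685.FS

open Finset Filter Topology ENNReal

variable {𝕜 : Type*} [RCLike 𝕜]

/-- the space `ℓ_p` -/
abbrev Lp' (𝕜 : Type*) [RCLike 𝕜] (p : ℝ≥0∞) : Type _ := lp (fun _ : ℕ => 𝕜) p

section blocks
variable {α : ℕ → Type} [∀ n, Fintype (α n)] (e : (Σ n, α n) ≃ ℕ) {p : ℝ≥0∞}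

/-- the `n`-th block of a function on `ℕ` -/
def bl (y : ℕ → 𝕜) (n : ℕ) : α n → 𝕜 := fun ω => y (e ⟨n, ω⟩)

lemma bl_add (y z : ℕ → 𝕜) (n : ℕ) : bl e (y + z) n = bl e y n + bl e z n := rfl
lemma bl_smul (c : 𝕜) (y : ℕ → 𝕜) (n : ℕ) : bl e (c • y) n = c • bl e y n := rfl

/-- glueing of blocks -/
def gl (w : ∀ n, α n → 𝕜) : ℕ → 𝕜 := fun j => w (e.symm j).1 (e.symm j).2

lemma bl_gl (w : ∀ n, α n → 𝕜) (n : ℕ) : bl e (gl e w) n = w n := by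
  ext ω
  show w (e.symm (e ⟨n, ω⟩)).1 (e.symm (e ⟨n, ω⟩)).2 = w n ω
  rw [Equiv.symm_apply_apply]

/-- the first `N` blocks -/
def fb (N : ℕ) : Finset ℕ := ((range N).sigma (fun n => (univ : Finset (α n)))).map e.toEmbedding

lemma sum_fb (F : ℕ → ℝ) (N : ℕ) : ∑ j ∈ fb e N, F j = ∑ n ∈ range N, ∑ ω : α n, F (e ⟨n, ω⟩) := by
  unfold fb
  rw [sum_map, sum_sigma]
  rfl

lemma exists_fb (s : Finset ℕ) : ∃ N, s ⊆ fb e N := by
  refine ⟨(s.sup fun j => (e.symm j).1) + 1, fun j hj => ?_⟩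
  unfold fb
  rw [Finset.mem_map]
  refine ⟨e.symm j, ?_, by simp⟩
  simp only [mem_sigma, mem_range, mem_univ, and_true]
  exact Nat.lt_succ_of_le (le_sup (f := fun j => (e.symm j).1) hj)

variable [Fact (1 ≤ p)]

lemma sum_nrm_le (hp : 0 < p.toReal) (y : Lp' 𝕜 p) (N : ℕ) :
    ∑ n ∈ range N, nrm p.toReal (bl e y n) ^ p.toReal ≤ ‖y‖ ^ p.toReal := by
  have h := lp.sum_rpow_le_norm_rpow hp y (fb e N)
  rw [sum_fb e] at h
  refine le_trans (le_of_eq ?_) h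
  exact sum_congr rfl fun n _ => nrm_rpow hp _

lemma nrm_bl_le (hp : 0 < p.toReal) (y : Lp' 𝕜 p) (n : ℕ) : nrm p.toReal (bl e y n) ≤ ‖y‖ := by
  refine (Real.rpow_le_rpow_iff (nrm_nonneg _ _) (norm_nonneg _) hp).mp ?_
  refine le_trans ?_ (sum_nrm_le e hp y (n + 1))
  exact single_le_sum (f := fun n => nrm p.toReal (bl e y n) ^ p.toReal)
    (fun _ _ => Real.rpow_nonneg (nrm_nonneg _ _) _) (mem_range.mpr (Nat.lt_succ_self n))

lemma sum_le_of_blocks (hp : 0 < p.toReal) {z : ℕ → 𝕜} {B : ℝ}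
    (h : ∀ N, ∑ n ∈ range N, nrm p.toReal (bl e z n) ^ p.toReal ≤ B) (s : Finset ℕ) :
    ∑ j ∈ s, ‖z j‖ ^ p.toReal ≤ B := by
  obtain ⟨N, hN⟩ := exists_fb e s
  refine (sum_le_sum_of_subset_of_nonneg hN fun _ _ _ =>
    Real.rpow_nonneg (norm_nonneg _) _).trans ?_
  rw [sum_fb e]
  refine le_trans (le_of_eq ?_) (h N)
  exact sum_congr rfl fun n _ => (nrm_rpow hp _).symm

lemma memlp_of_blocks (hp : 0 < p.toReal) {z : ℕ → 𝕜} {B : ℝ}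
    (h : ∀ N, ∑ n ∈ range N, nrm p.toReal (bl e z n) ^ p.toReal ≤ B) : Memℓp z p :=
  memℓp_gen' (sum_le_of_blocks e hp h)

lemma norm_le_of_blocks (hp : 0 < p.toReal) (z : Lp' 𝕜 p) {B : ℝ} (hB : 0 ≤ B)
    (h : ∀ N, ∑ n ∈ range N, nrm p.toReal (bl e z n) ^ p.toReal ≤ B ^ p.toReal) : ‖z‖ ≤ B :=
  lp.norm_le_of_forall_sum_le hp hB (sum_le_of_blocks e hp h)

/-- the function supported on one block -/
noncomputable def ext1 (n : ℕ) (f : α n → 𝕜) : ℕ → 𝕜 :=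
  gl e (fun k => if h : k = n then fun ω => f (h ▸ ω) else 0)

lemma bl_ext1_self (n : ℕ) (f : α n → 𝕜) : bl e (ext1 e n f) n = f := by
  unfold ext1; rw [bl_gl]; simp

lemma bl_ext1_ne (n : ℕ) (f : α n → 𝕜) {k : ℕ} (h : k ≠ n) : bl e (ext1 e n f) k = 0 := by
  unfold ext1; rw [bl_gl]; simp [h]

lemma nrm_zero {β : Type*} [Fintype β] {p : ℝ} (hp : 0 < p) : nrm p (0 : β → 𝕜) = 0 := by
  unfold nrm
  simp [Real.zero_rpow hp.ne', Real.zero_rpow (inv_ne_zero hp.ne')]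

lemma ext1_sum (hp : 0 < p.toReal) (n : ℕ) (f : α n → 𝕜) (N : ℕ) :
    ∑ k ∈ range N, nrm p.toReal (bl e (ext1 e n f) k) ^ p.toReal ≤ nrm p.toReal f ^ p.toReal := by
  have h : ∀ k ∈ range N, nrm p.toReal (bl e (ext1 e n f) k) ^ p.toReal ≤
      if k = n then nrm p.toReal f ^ p.toReal else 0 := by
    intro k _
    split_ifs with hk
    · subst hk; rw [bl_ext1_self]
    · rw [bl_ext1_ne e n f hk, nrm_zero hp, Real.zero_rpow hp.ne']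
  refine (sum_le_sum h).trans ?_
  rw [sum_ite_eq']
  split_ifs
  · exact le_rfl
  · exact Real.rpow_nonneg (nrm_nonneg _ _) _

lemma ext1_mem (hp : 0 < p.toReal) (n : ℕ) (f : α n → 𝕜) : Memℓp (ext1 e n f) p :=
  memlp_of_blocks e hp (ext1_sum e hp n f)

/-- extension by zero -/
noncomputable def ext (hp : 0 < p.toReal) (n : ℕ) : (α n → 𝕜) →ₗ[𝕜] Lp' 𝕜 p where
  toFun f := ⟨ext1 e n f, ext1_mem e hp n f⟩
  map_add' f g := by
    ext j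
    show ext1 e n (f + g) j = ext1 e n f j + ext1 e n g j
    unfold ext1 gl
    by_cases h : (e.symm j).1 = n
    · simp only [dif_pos h]; rfl
    · simp only [dif_neg h, Pi.zero_apply, add_zero]
  map_smul' c f := by
    ext j
    show ext1 e n (c • f) j = c * ext1 e n f j
    unfold ext1 gl
    by_cases h : (e.symm j).1 = n
    · simp only [dif_pos h]; rfl
    · simp only [dif_neg h, Pi.zero_apply, mul_zero]

lemma norm_ext_le (hp : 0 < p.toReal) (n : ℕ) (f : α n → 𝕜) :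
    ‖ext e (p := p) hp n f‖ ≤ nrm p.toReal f :=
  norm_le_of_blocks e hp _ (nrm_nonneg _ _) (ext1_sum e hp n f)

lemma bl_ext_self (hp : 0 < p.toReal) (n : ℕ) (f : α n → 𝕜) :
    bl e (ext e (p := p) hp n f) n = f := bl_ext1_self e n f

end blocks

/-- A block family between `ℓ_p` and `ℓ_q`. -/
structure Fam (𝕜 : Type*) [RCLike 𝕜] (p q : ℝ≥0∞) where
  α : ℕ → Type
  β : ℕ → Type
  fα : ∀ n, Fintype (α n)
  fβ : ∀ n, Fintype (β n)
  e : (Σ n, α n) ≃ ℕ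
  f : (Σ n, β n) ≃ ℕ
  h : ∀ n, Fin n → α n → 𝕜
  x : ∀ n, Fin n → α n → 𝕜
  k : ∀ n, Fin n → β n → 𝕜
  g : ∀ n, Fin n → β n → 𝕜
  C : ℝ
  hC : 1 ≤ C
  κ : ℕ → ℝ
  μ : ℕ → ℝ
  hκ : ∀ n, 0 ≤ κ n
  hμ : ∀ n, 0 ≤ μ n
  ha : ∀ n (y : α n → 𝕜), nrm 2 (P (h n) y) ≤ C * nrm p.toReal y
  hb : ∀ n (u : Fin n → 𝕜), nrm q.toReal (K (k n) u) ≤ C * nrm 2 u
  hc : ∀ ε : ℝ, 0 < ε → ∃ L : ℝ, 0 < L ∧ ∃ n0 : ℕ, ∀ n, n0 ≤ n → ∀ y : α n → 𝕜,
    (∀ i, ‖P (h n) y i‖ ≤ 1) → L ≤ nrm 2 (P (h n) y) →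
      nrm q.toReal (K (k n) (P (h n) y)) ≤ ε * nrm p.toReal y
  hd : ∀ n (a : Fin n → 𝕜), nrm p.toReal (K (x n) a) ≤ κ n * nrm 2 a
  hx : ∀ n i, nrm p.toReal (x n i) ≤ 1
  he : ∀ n (z : β n → 𝕜), nrm 2 (P (g n) z) ≤ μ n * nrm q.toReal z
  hg : ∀ n (z : β n → 𝕜) i, ‖P (g n) z i‖ ≤ nrm q.toReal z
  hf : ∀ n i, P (g n) (K (k n) (P (h n) (x n i))) i = 1

attribute [instance] Fam.fα Fam.fβ

namespace Fam

variable {p q : ℝ≥0∞} [Fact (1 ≤ p)] [Fact (1 ≤ q)] (F : Fam 𝕜 p q)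

/-- the operator on one block -/
noncomputable def R1 (n : ℕ) : (F.α n → 𝕜) →ₗ[𝕜] (F.β n → 𝕜) := (K (F.k n)) ∘ₗ (P (F.h n))

lemma R1_le (n : ℕ) (y : F.α n → 𝕜) :
    nrm q.toReal (F.R1 n y) ≤ F.C ^ 2 * nrm p.toReal y := by
  have hC := F.hC
  calc nrm q.toReal (F.R1 n y) ≤ F.C * nrm 2 (P (F.h n) y) := F.hb n _
    _ ≤ F.C * (F.C * nrm p.toReal y) := mul_le_mul_of_nonneg_left (F.ha n y) (by linarith)
    _ = _ := by ring

/-- the function `R y` -/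
noncomputable def Rf (y : ℕ → 𝕜) : ℕ → 𝕜 := gl F.f (fun n => F.R1 n (bl F.e y n))

lemma bl_Rf (y : ℕ → 𝕜) (n : ℕ) : bl F.f (F.Rf y) n = F.R1 n (bl F.e y n) := bl_gl _ _ _

lemma sum_pq (hp : 0 < p.toReal) (hpq : p.toReal ≤ q.toReal) (y : Lp' 𝕜 p) (N : ℕ) :
    ∑ n ∈ range N, nrm p.toReal (bl F.e y n) ^ q.toReal ≤ ‖y‖ ^ q.toReal := by
  rcases eq_or_lt_of_le (norm_nonneg y) with h0 | h0
  · have : ∀ n ∈ range N, nrm p.toReal (bl F.e y n) ^ q.toReal = 0 := by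
      intro n _
      have : nrm p.toReal (bl F.e y n) = 0 :=
        le_antisymm ((nrm_bl_le F.e hp y n).trans h0.symm.le) (nrm_nonneg _ _)
      rw [this, Real.zero_rpow (by linarith)]
    rw [sum_congr rfl this, sum_const_zero]
    exact Real.rpow_nonneg (norm_nonneg _) _
  · have h1 : ∀ n ∈ range N, nrm p.toReal (bl F.e y n) ^ q.toReal ≤
        ‖y‖ ^ (q.toReal - p.toReal) * nrm p.toReal (bl F.e y n) ^ p.toReal := by
      intro n _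
      rcases eq_or_lt_of_le (nrm_nonneg p.toReal (bl F.e y n)) with h | h
      · rw [← h, Real.zero_rpow (by linarith), Real.zero_rpow hp.ne']; simp
      · rw [show q.toReal = (q.toReal - p.toReal) + p.toReal by ring, Real.rpow_add h,
          add_sub_cancel_right]
        exact mul_le_mul_of_nonneg_right (Real.rpow_le_rpow h.le (nrm_bl_le F.e hp y n)
          (by linarith)) (Real.rpow_nonneg h.le _)
    refine (sum_le_sum h1).trans ?_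
    rw [← mul_sum]
    refine (mul_le_mul_of_nonneg_left (sum_nrm_le F.e hp y N)
      (Real.rpow_nonneg (norm_nonneg _) _)).trans (le_of_eq ?_)
    rw [← Real.rpow_add h0]; congr 1; ring

lemma sum_Rf (hp : 0 < p.toReal) (hpq : p.toReal ≤ q.toReal) (y : Lp' 𝕜 p) (N : ℕ) :
    ∑ n ∈ range N, nrm q.toReal (bl F.f (F.Rf y) n) ^ q.toReal ≤
      (F.C ^ 2 * ‖y‖) ^ q.toReal := by
  have hC := F.hC
  have hq : 0 < q.toReal := hp.trans_le hpq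
  simp only [bl_Rf]
  have : ∀ n ∈ range N, nrm q.toReal (F.R1 n (bl F.e y n)) ^ q.toReal ≤
      (F.C ^ 2) ^ q.toReal * nrm p.toReal (bl F.e y n) ^ q.toReal := by
    intro n _
    rw [← Real.mul_rpow (by positivity) (nrm_nonneg _ _)]
    exact Real.rpow_le_rpow (nrm_nonneg _ _) (F.R1_le n _) hq.le
  refine (sum_le_sum this).trans ?_
  rw [← mul_sum, Real.mul_rpow (by positivity) (norm_nonneg _)]
  exact mul_le_mul_of_nonneg_left (F.sum_pq hp hpq y N) (by positivity)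

/-- the operator `R` -/
noncomputable def R (hp : 0 < p.toReal) (hpq : p.toReal ≤ q.toReal) : Lp' 𝕜 p →L[𝕜] Lp' 𝕜 q :=
  LinearMap.mkContinuous
    { toFun := fun y => ⟨F.Rf y, memlp_of_blocks F.f (hp.trans_le hpq) (F.sum_Rf hp hpq y)⟩
      map_add' := by
        intro y z
        ext j
        exact congrFun (map_add (F.R1 _) (bl F.e y _) (bl F.e z _)) _
      map_smul' := by
        intro c y
        ext j
        exact congrFun (map_smul (F.R1 _) c (bl F.e y _)) _ }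
    (F.C ^ 2) (fun y => norm_le_of_blocks F.f (hp.trans_le hpq) _
      (mul_nonneg (by positivity) (norm_nonneg _)) (F.sum_Rf hp hpq y))

lemma bl_R (hp : 0 < p.toReal) (hpq : p.toReal ≤ q.toReal) (y : Lp' 𝕜 p) (n : ℕ) :
    bl F.f (F.R hp hpq y) n = K (F.k n) (P (F.h n) (bl F.e y n)) := F.bl_Rf y n

/-- the operator `U_n` -/
noncomputable def U (hp : 0 < p.toReal) (n : ℕ) : EuclideanSpace 𝕜 (Fin n) →ₗ[𝕜] Lp' 𝕜 p :=
  (ext F.e hp n) ∘ₗ (K (F.x n)) ∘ₗ (WithLp.linearEquiv 2 𝕜 (Fin n → 𝕜)).toLinearMap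

/-- the operator `W_n` -/
noncomputable def W (n : ℕ) : Lp' 𝕜 q →ₗ[𝕜] EuclideanSpace 𝕜 (Fin n) :=
  (WithLp.linearEquiv 2 𝕜 (Fin n → 𝕜)).symm.toLinearMap ∘ₗ (P (F.g n)) ∘ₗ
    { toFun := fun z => bl F.f z n
      map_add' := fun _ _ => rfl
      map_smul' := fun _ _ => rfl }

lemma nrm_two_eq {n : ℕ} (a : EuclideanSpace 𝕜 (Fin n)) : nrm 2 (WithLp.ofLp a) = ‖a‖ := by
  rw [EuclideanSpace.norm_eq]
  unfold nrm
  rw [Real.sqrt_eq_rpow]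
  simp

lemma U_le (hp : 0 < p.toReal) (n : ℕ) (a : EuclideanSpace 𝕜 (Fin n)) :
    ‖F.U hp n a‖ ≤ F.κ n * ‖a‖ := by
  refine (norm_ext_le F.e hp n _).trans ?_
  rw [← nrm_two_eq]
  exact F.hd n _

lemma W_le (hq : 0 < q.toReal) (n : ℕ) (z : Lp' 𝕜 q) : ‖F.W n z‖ ≤ F.μ n * ‖z‖ := by
  rw [← nrm_two_eq]
  exact (F.he n _).trans (mul_le_mul_of_nonneg_left (nrm_bl_le F.f hq z n) (F.hμ n))

/-- the traces -/
noncomputable def tr (hp : 0 < p.toReal) (n : ℕ) (S : Lp' 𝕜 p →L[𝕜] Lp' 𝕜 q) : 𝕜 :=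
  LinearMap.trace 𝕜 _ (F.W n ∘ₗ S.toLinearMap ∘ₗ F.U hp n)

lemma tr_eq (hp : 0 < p.toReal) (n : ℕ) (S : Lp' 𝕜 p →L[𝕜] Lp' 𝕜 q) :
    F.tr hp n S = ∑ i, P (F.g n) (bl F.f (S (ext F.e hp n (F.x n i))) n) i := by
  classical
  unfold tr
  rw [LinearMap.trace_eq_sum_inner _ (EuclideanSpace.basisFun (Fin n) 𝕜)]
  refine sum_congr rfl fun i _ => ?_
  rw [EuclideanSpace.basisFun_inner]
  have hK : K (F.x n) (WithLp.ofLp (EuclideanSpace.basisFun (Fin n) 𝕜 i)) = F.x n i := by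
    ext ω
    rw [K_apply]
    simp [EuclideanSpace.basisFun_apply]
  show P (F.g n) (bl F.f (S (ext F.e hp n (K (F.x n) (WithLp.ofLp
    (EuclideanSpace.basisFun (Fin n) 𝕜 i))))) n) i = _
  rw [hK]

lemma tr_le (hp : 0 < p.toReal) (hq : 0 < q.toReal) (n : ℕ) (S : Lp' 𝕜 p →L[𝕜] Lp' 𝕜 q) :
    ‖F.tr hp n S‖ ≤ n * ‖S‖ := by
  rw [tr_eq]
  refine (norm_sum_le _ _).trans ?_
  have : ∀ i ∈ (univ : Finset (Fin n)),
      ‖P (F.g n) (bl F.f (S (ext F.e hp n (F.x n i))) n) i‖ ≤ ‖S‖ := by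
    intro i _
    refine (F.hg n _ i).trans ((nrm_bl_le F.f hq _ n).trans ((S.le_opNorm _).trans ?_))
    refine mul_le_of_le_one_right (norm_nonneg _) ?_
    exact (norm_ext_le F.e hp n _).trans (F.hx n i)
  refine (sum_le_sum this).trans ?_
  simp

lemma tr_R (hp : 0 < p.toReal) (hpq : p.toReal ≤ q.toReal) (n : ℕ) :
    F.tr hp n (F.R hp hpq) = n := by
  rw [tr_eq]
  have : ∀ i, P (F.g n) (bl F.f (F.R hp hpq (ext F.e hp n (F.x n i))) n) i = 1 := by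
    intro i
    rw [bl_R, bl_ext_self]
    exact F.hf n i
  simp [this]

lemma tr_add (hp : 0 < p.toReal) (n : ℕ) (S T : Lp' 𝕜 p →L[𝕜] Lp' 𝕜 q) :
    F.tr hp n (S + T) = F.tr hp n S + F.tr hp n T := by
  simp only [tr_eq, ← sum_add_distrib]
  refine sum_congr rfl fun i _ => ?_
  exact congrFun (map_add (P (F.g n)) (bl F.f (S _) n) (bl F.f (T _) n)) i

lemma tr_smul (hp : 0 < p.toReal) (n : ℕ) (c : 𝕜) (S : Lp' 𝕜 p →L[𝕜] Lp' 𝕜 q) :
    F.tr hp n (c • S) = c * F.tr hp n S := by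
  simp only [tr_eq, mul_sum]
  refine sum_congr rfl fun i _ => ?_
  exact congrFun (map_smul (P (F.g n)) c (bl F.f (S _) n)) i

end Fam

end Pool.Agent.W685.FS
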