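import Pool.Agent.W685.FS.Shr

/-!
# The ideal of finitely strictly singular operators is not generated by one operator
-/

set_option autoImplicit false
set_option linter.unusedSectionVars false

namespace Pool.Agent.W685.FS

open Finset Filter Topology ENNReal

variable {𝕜 : Type*} [RCLike 𝕜]

lemma om_infinite (m : ℕ → ℕ) : Infinite (Σ n, Om n (m n)) :=
  Infinite.of_injective (fun n => (⟨n, fun _ => 0⟩ : Σ n, Om n (m n))) (by
    intro a b h
    exact congrArg Sigma.fst h)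

/-- an enumeration of the index set -/
noncomputable def en (m : ℕ → ℕ) : (Σ n, Om n (m n)) ≃ ℕ :=
  haveI := om_infinite m
  (nonempty_denumerable (Σ n, Om n (m n))).some.eqv

lemma flat_small {s : ℝ} (hs : 2 < s) {m : ℕ → ℕ} (hm : Tendsto m atTop atTop) {c ε : ℝ}
    (hc : 0 ≤ c) (hε : 0 < ε) :
    ∃ L : ℝ, 0 < L ∧ ∃ n0 : ℕ, ∀ n, n0 ≤ n →
      (c * (L ^ (2 - s) + dl (m n) ^ (s / 2 - 1))) ^ (1 / s) ≤ ε := by
  have hs0 : 0 < s := by linarith
  have hdl : Tendsto (fun n => dl (m n)) atTop (𝓝 0) := by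
    have h1 : Tendsto (fun n : ℕ => (2:ℝ) / ((n : ℝ) + 2)) atTop (𝓝 0) :=
      Tendsto.div_atTop tendsto_const_nhds
        (tendsto_atTop_add_const_right _ _ tendsto_natCast_atTop_atTop)
    exact h1.comp hm
  have h2 : Tendsto (fun n => dl (m n) ^ (s / 2 - 1)) atTop (𝓝 0) := by
    have := hdl.rpow_const (p := s / 2 - 1) (Or.inr (by linarith))
    rwa [Real.zero_rpow (by linarith)] at this
  have h3 : Tendsto (fun L : ℝ => L ^ (2 - s)) atTop (𝓝 0) := by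
    have := tendsto_rpow_neg_atTop (show 0 < s - 2 by linarith)
    rwa [show -(s - 2) = 2 - s by ring] at this
  set η : ℝ := ε ^ s / (2 * (c + 1)) with hη
  have hη0 : 0 < η := by positivity
  obtain ⟨L, hL, hL0⟩ := ((h3.eventually (gt_mem_nhds hη0)).and (eventually_gt_atTop 0)).exists
  obtain ⟨n0, hn0⟩ := eventually_atTop.mp (h2.eventually (gt_mem_nhds hη0))
  refine ⟨L, hL0, n0, fun n hn => ?_⟩
  have h4 : c * (L ^ (2 - s) + dl (m n) ^ (s / 2 - 1)) ≤ ε ^ s := by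
    have h5 := hn0 n hn
    have h6 : L ^ (2 - s) + dl (m n) ^ (s / 2 - 1) ≤ 2 * η := by linarith
    calc c * (L ^ (2 - s) + dl (m n) ^ (s / 2 - 1)) ≤ c * (2 * η) :=
          mul_le_mul_of_nonneg_left h6 hc
      _ ≤ (c + 1) * (2 * η) := by nlinarith
      _ = ε ^ s := by rw [hη]; field_simp
  have hd := dl_pos (m n)
  have h7 : 0 ≤ c * (L ^ (2 - s) + dl (m n) ^ (s / 2 - 1)) := by positivity
  calc _ ≤ (ε ^ s) ^ (1 / s) := Real.rpow_le_rpow h7 h4 (by positivity)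
    _ = ε := by rw [← Real.rpow_mul hε.le, mul_one_div_cancel hs0.ne', Real.rpow_one]

lemma dl_rpow_neg_le {m : ℕ} {x : ℝ} (hx : x ≤ 0) (hx1 : -1 ≤ x) : dl m ^ x ≤ m + 2 := by
  have hd := dl_pos m
  have h1 : dl m ^ x ≤ dl m ^ (-1 : ℝ) :=
    Real.rpow_le_rpow_of_exponent_ge hd (dl_le_one m) hx1
  refine h1.trans ?_
  rw [Real.rpow_neg_one]
  unfold dl
  rw [inv_div]
  have : (0:ℝ) ≤ m := m.cast_nonneg
  linarith

lemma P_g_le {α ι : Type*} [Fintype α] {p q : ℝ} (hpq : p.HolderConjugate q)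
    (g : ι → α → 𝕜) (hg : ∀ i, nrm q (g i) = 1) (z : α → 𝕜) (i : ι) : ‖P g z i‖ ≤ nrm p z := by
  have := holder hpq z (g i)
  rwa [hg, mul_one] at this

section
variable {p q : ℝ≥0∞}

/-- the family for `2 ≤ p < q` -/
noncomputable def famA {p' q' : ℝ} (hp2 : 2 ≤ p.toReal) (hpq : p.toReal < q.toReal)
    (hp : p.toReal.HolderConjugate p') (hq : q.toReal.HolderConjugate q')
    (m : ℕ → ℕ) (hm : Tendsto m atTop atTop) : Fam 𝕜 p q where
  α n := Om n 0
  β n := Om n (m n)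
  fα _ := inferInstance
  fβ _ := inferInstance
  e := en (fun _ => 0)
  f := en m
  h n := vec p' n 0
  x n := vec p.toReal n 0
  k n := vec q.toReal n (m n)
  g n := vec q' n (m n)
  C := max (cB p') ((2 * cK q.toReal) ^ (1 / q.toReal))
  hC := (one_le_cB p').trans (le_max_left _ _)
  κ _ := cB p.toReal
  μ n := dl (m n) ^ (1 / 2 - 1 / q')
  hκ _ := zero_le_one.trans (one_le_cB _)
  hμ n := Real.rpow_nonneg (dl_pos _).le _
  ha n y := by
    refine (dual_bound hp _ (zero_le_one.trans (one_le_cB p')) (fun a => bound_rad hp.symm.pos n a) y).trans ?_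
    exact mul_le_mul_of_nonneg_right (le_max_left _ _) (nrm_nonneg _ _)
  hb n u := by
    refine (bound_two_le (by linarith) n (m n) u).trans ?_
    exact mul_le_mul_of_nonneg_right (le_max_right _ _) (nrm_nonneg _ _)
  hc := by
    intro ε hε
    have hq2 : 2 < q.toReal := by linarith
    have hB := zero_lt_one.trans_le (one_le_cB p')
    obtain ⟨L, hL, n0, h⟩ := flat_small hq2 hm (cK_nonneg hq2.le)
      (show 0 < ε / cB p' by positivity)
    refine ⟨L, hL, n0, fun n hn y hy hLy => ?_⟩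
    refine (flat hq2.le n (m n) _ hy hL hLy).trans ?_
    refine (mul_le_mul_of_nonneg_right (h n hn) (nrm_nonneg _ _)).trans ?_
    have h1 := dual_bound hp _ hB.le (fun a => bound_rad hp.symm.pos n a) y
    refine (mul_le_mul_of_nonneg_left h1 (by positivity)).trans (le_of_eq ?_)
    field_simp
  hd n a := bound_rad hp.pos n a
  hx n i := (nrm_vec hp.pos n 0 i).le
  he n z := dual_bound hq _ (Real.rpow_nonneg (dl_pos _).le _)
    (fun a => F2 hq.symm.pos (by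
      have h1 := hq.inv_add_inv_eq_one
      have h2 : (q.toReal)⁻¹ ≤ 2⁻¹ := inv_anti₀ (by norm_num) (by linarith)
      have h3 : 2⁻¹ ≤ q'⁻¹ := by norm_num at h2 ⊢; linarith
      exact (inv_le_inv₀ (by norm_num) hq.symm.pos).mp h3) n (m n) a) z
  hg n z i := P_g_le hq _ (fun i => nrm_vec hq.symm.pos n (m n) i) z i
  hf n i := by
    rw [P_vec hp]
    have : K (vec q.toReal n (m n)) (Pi.single i 1) = vec (𝕜 := 𝕜) q.toReal n (m n) i := by
      ext ω; rw [K_apply]; simp [Pi.single_apply]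
    rw [this, P_vec hq, Pi.single_eq_same]

/-- the family for `p < 2` -/
noncomputable def famB {p' q' : ℝ} (hp2 : p.toReal < 2)
    (hp : p.toReal.HolderConjugate p') (hq : q.toReal.HolderConjugate q')
    (m : ℕ → ℕ) (hm : Tendsto m atTop atTop) : Fam 𝕜 p q where
  α n := Om n (m n)
  β n := Om n 0
  fα _ := inferInstance
  fβ _ := inferInstance
  e := en m
  f := en (fun _ => 0)
  h n := vec p' n (m n)
  x n := vec p.toReal n (m n)
  k n := vec q.toReal n 0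
  g n := vec q' n 0
  C := max (cB q.toReal) ((2 * cK p') ^ (1 / p'))
  hC := (one_le_cB _).trans (le_max_left _ _)
  κ n := dl (m n) ^ (1 / 2 - 1 / p.toReal)
  μ _ := cB q'
  hκ n := Real.rpow_nonneg (dl_pos _).le _
  hμ _ := zero_le_one.trans (one_le_cB _)
  ha n y := by
    have h2 : 2 ≤ p' := by
      have h1 := hp.inv_add_inv_eq_one
      have h2 : 2⁻¹ ≤ (p.toReal)⁻¹ := inv_anti₀ hp.pos hp2.le
      have h3 : p'⁻¹ ≤ 2⁻¹ := by norm_num at h2 ⊢; linarith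
      exact (inv_le_inv₀ hp.symm.pos (by norm_num)).mp h3
    have hcK := cK_nonneg h2
    refine (dual_bound hp _ (Real.rpow_nonneg (by positivity) _)
      (fun a => bound_two_le h2 n (m n) a) y).trans ?_
    exact mul_le_mul_of_nonneg_right (le_max_right _ _) (nrm_nonneg _ _)
  hb n u := (bound_rad hq.pos n u).trans
    (mul_le_mul_of_nonneg_right (le_max_left _ _) (nrm_nonneg _ _))
  hc := by
    intro ε hε
    have h2 : 2 < p' := by
      have h1 := hp.inv_add_inv_eq_one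
      have h2 : 2⁻¹ < (p.toReal)⁻¹ := inv_strictAnti₀ hp.pos hp2
      have h3 : p'⁻¹ < 2⁻¹ := by norm_num at h2 ⊢; linarith
      exact (inv_lt_inv₀ hp.symm.pos (by norm_num)).mp h3
    have hB := zero_lt_one.trans_le (one_le_cB q.toReal)
    obtain ⟨L, hL, n0, h⟩ := flat_small h2 hm (cK_nonneg h2.le)
      (show 0 < ε / cB q.toReal by positivity)
    refine ⟨L, hL, n0, fun n hn y hy hLy => ?_⟩
    refine (bound_rad hq.pos n _).trans ?_
    have h3 := sq_nrm_P hp (vec p' n (m n)) y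
    have h4 := flat h2.le n (m n) (star (P (vec p' n (m n)) y)) (by intro i; simpa using hy i)
      hL (by rw [nrm_star]; exact hLy)
    rw [nrm_star] at h4
    have h5 := h4.trans (mul_le_mul_of_nonneg_right (h n hn) (nrm_nonneg _ _))
    have h6 := h3.trans (mul_le_mul_of_nonneg_left h5 (nrm_nonneg _ _))
    have hpos : 0 < nrm 2 (P (vec p' n (m n)) y) := hL.trans_le hLy
    have h7 : nrm 2 (P (vec p' n (m n)) y) ≤ ε / cB q.toReal * nrm p.toReal y := by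
      have : nrm 2 (P (vec p' n (m n)) y) * nrm 2 (P (vec p' n (m n)) y) ≤
          (ε / cB q.toReal * nrm p.toReal y) * nrm 2 (P (vec p' n (m n)) y) := by nlinarith
      exact le_of_mul_le_mul_right this hpos
    refine (mul_le_mul_of_nonneg_left h7 hB.le).trans (le_of_eq ?_)
    field_simp
  hd n a := F2 hp.pos hp2.le n (m n) a
  hx n i := (nrm_vec hp.pos n (m n) i).le
  he n z := dual_bound hq _ (zero_le_one.trans (one_le_cB q'))
    (fun a => bound_rad hq.symm.pos n a) z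
  hg n z i := P_g_le hq _ (fun i => nrm_vec hq.symm.pos n 0 i) z i
  hf n i := by
    rw [P_vec hp]
    have : K (vec q.toReal n 0) (Pi.single i 1) = vec (𝕜 := 𝕜) q.toReal n 0 i := by
      ext ω; rw [K_apply]; simp [Pi.single_apply]
    rw [this, P_vec hq, Pi.single_eq_same]

end

/-- a diagonal choice -/
lemma diag (Q : ℕ → ℕ → Prop) (hQ : ∀ k, ∀ᶠ n in atTop, Q k n) :
    ∃ m : ℕ → ℕ, Tendsto m atTop atTop ∧ ∀ᶠ n in atTop, Q (m n) n := by
  classical
  refine ⟨fun n => Nat.findGreatest (fun k => Q k n) n, ?_, ?_⟩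
  · rw [tendsto_atTop]
    intro k
    filter_upwards [hQ k, eventually_ge_atTop k] with n h1 h2
    exact Nat.le_findGreatest h2 h1
  · filter_upwards [hQ 0] with n h
    exact Nat.findGreatest_spec (P := fun k => Q k n) (Nat.zero_le n) h

section
variable {p q : ℝ≥0∞} [Fact (1 ≤ p)] [Fact (1 ≤ q)]

/-- the closed ideal generated by `T` -/
def idealGen (T : Lp' 𝕜 p →L[𝕜] Lp' 𝕜 q) : Set (Lp' 𝕜 p →L[𝕜] Lp' 𝕜 q) :=
  closure (Submodule.span 𝕜 {S | ∃ (A : Lp' 𝕜 q →L[𝕜] Lp' 𝕜 q) (B : Lp' 𝕜 p →L[𝕜] Lp' 𝕜 p),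
    S = A ∘L T ∘L B} : Set (Lp' 𝕜 p →L[𝕜] Lp' 𝕜 q))

/-- finitely strictly singular operators -/
def IsFSS (T : Lp' 𝕜 p →L[𝕜] Lp' 𝕜 q) : Prop := ∀ ε : ℝ, 0 < ε → ∃ n : ℕ, Shrinks T n ε

lemma tr_tendsto (F : Fam 𝕜 p q) (hp : 0 < p.toReal) (hq : 0 < q.toReal)
    (T : Lp' 𝕜 p →L[𝕜] Lp' 𝕜 q) (m : ℕ → ℕ) (hm : Tendsto m atTop atTop) {c : ℝ}
    (hκμ : ∀ n, F.κ n * F.μ n ≤ c * (m n + 2))
    (hT : ∀ᶠ n in atTop, ∃ d : ℕ, 1 ≤ d ∧ ∃ b : ℝ, 0 ≤ b ∧ Shrinks T d b ∧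
      n * b + d * ‖T‖ ≤ n / ((m n : ℝ) + 1) ^ 2)
    (A : Lp' 𝕜 q →L[𝕜] Lp' 𝕜 q) (B : Lp' 𝕜 p →L[𝕜] Lp' 𝕜 p) :
    Tendsto (fun n : ℕ => ‖F.tr hp n (A ∘L T ∘L B)‖ / n) atTop (𝓝 0) := by
  have hc : 0 ≤ c := by
    have h1 := hκμ 0
    have h2 : 0 ≤ F.κ 0 * F.μ 0 := mul_nonneg (F.hκ 0) (F.hμ 0)
    have h3 : (0:ℝ) < (m 0 : ℝ) + 2 := by positivity
    exact nonneg_of_mul_nonneg_left (h2.trans h1) h3
  have hlim : Tendsto (fun n : ℕ => (c * ‖A‖ * ‖B‖) * (2 / ((m n : ℝ) + 1))) atTop (𝓝 0) := by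
    have h1 : Tendsto (fun n : ℕ => (2:ℝ) / ((n : ℝ) + 1)) atTop (𝓝 0) :=
      Tendsto.div_atTop tendsto_const_nhds
        (tendsto_atTop_add_const_right _ _ tendsto_natCast_atTop_atTop)
    have h2 := (h1.comp hm).const_mul (c * ‖A‖ * ‖B‖)
    rwa [mul_zero] at h2
  refine squeeze_zero' (Eventually.of_forall fun n => by positivity) ?_ hlim
  filter_upwards [hT, eventually_gt_atTop 0] with n hn hn0
  obtain ⟨d, hd, b, hb, hs, hle⟩ := hn
  have hnpos : (0:ℝ) < n := by exact_mod_cast hn0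
  rw [div_le_iff₀ hnpos]
  have hU : ∀ a, ‖(B.toLinearMap ∘ₗ F.U hp n) a‖ ≤ (‖B‖ * F.κ n) * ‖a‖ := by
    intro a
    calc ‖B (F.U hp n a)‖ ≤ ‖B‖ * ‖F.U hp n a‖ := B.le_opNorm _
      _ ≤ ‖B‖ * (F.κ n * ‖a‖) := mul_le_mul_of_nonneg_left (F.U_le hp n a) (norm_nonneg _)
      _ = _ := by ring
  have hW : ∀ z, ‖(F.W n ∘ₗ A.toLinearMap) z‖ ≤ (F.μ n * ‖A‖) * ‖z‖ := by
    intro z
    calc ‖F.W n (A z)‖ ≤ F.μ n * ‖A z‖ := F.W_le hq n _
      _ ≤ F.μ n * (‖A‖ * ‖z‖) := mul_le_mul_of_nonneg_left (A.le_opNorm z) (F.hμ n)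
      _ = _ := by ring
  have h := trace_bound T hd hb hs (B.toLinearMap ∘ₗ F.U hp n)
    (mul_nonneg (norm_nonneg _) (F.hκ n)) hU (F.W n ∘ₗ A.toLinearMap)
    (mul_nonneg (F.hμ n) (norm_nonneg _)) hW
  have heq : (F.W n ∘ₗ A.toLinearMap) ∘ₗ T.toLinearMap ∘ₗ (B.toLinearMap ∘ₗ F.U hp n) =
      F.W n ∘ₗ (A ∘L T ∘L B).toLinearMap ∘ₗ F.U hp n := rfl
  rw [heq] at h
  refine h.trans ?_
  have hm1 : (0:ℝ) < (m n : ℝ) + 1 := by positivity
  calc ‖B‖ * F.κ n * (F.μ n * ‖A‖) * (n * b + d * ‖T‖)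
      = (‖A‖ * ‖B‖) * ((F.κ n * F.μ n) * (n * b + d * ‖T‖)) := by ring
    _ ≤ (‖A‖ * ‖B‖) * ((c * (m n + 2)) * (n / ((m n : ℝ) + 1) ^ 2)) := by
        refine mul_le_mul_of_nonneg_left ?_ (by positivity)
        exact mul_le_mul (hκμ n) hle (by positivity) (by positivity)
    _ ≤ (‖A‖ * ‖B‖) * ((c * (2 * (m n + 1))) * (n / ((m n : ℝ) + 1) ^ 2)) := by
        have : (0:ℝ) ≤ m n := Nat.cast_nonneg _
        gcongr
        linarith
    _ = _ := by field_simp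

/-- the contradiction -/
lemma not_gen (F : Fam 𝕜 p q) (hp1 : 1 ≤ p.toReal) (hpq : p.toReal < q.toReal)
    (T : Lp' 𝕜 p →L[𝕜] Lp' 𝕜 q) (m : ℕ → ℕ) (hm : Tendsto m atTop atTop) {c : ℝ}
    (hκμ : ∀ n, F.κ n * F.μ n ≤ c * (m n + 2))
    (hT : ∀ᶠ n in atTop, ∃ d : ℕ, 1 ≤ d ∧ ∃ b : ℝ, 0 ≤ b ∧ Shrinks T d b ∧
      n * b + d * ‖T‖ ≤ n / ((m n : ℝ) + 1) ^ 2) :
    idealGen T ≠ {S | IsFSS S} := by
  intro heq
  have hp0 : 0 < p.toReal := by linarith
  have hq0 : 0 < q.toReal := by linarith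
  have hR : F.R hp0 hpq.le ∈ idealGen T := by
    rw [heq]
    exact fun ε hε => F.shrinks_R hp1 hp0 hpq hε
  obtain ⟨S, hS, hdist⟩ := Metric.mem_closure_iff.mp hR (1 / 2) (by norm_num)
  -- the traces of `S` tend to zero
  have hS0 : Tendsto (fun n : ℕ => ‖F.tr hp0 n S‖ / n) atTop (𝓝 0) := by
    refine Submodule.span_induction (p := fun S _ =>
      Tendsto (fun n : ℕ => ‖F.tr hp0 n S‖ / n) atTop (𝓝 0)) ?_ ?_ ?_ ?_ hS
    · rintro _ ⟨A, B, rfl⟩
      exact tr_tendsto F hp0 hq0 T m hm hκμ hT A B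
    · have : ∀ n : ℕ, ‖F.tr hp0 n (0 : Lp' 𝕜 p →L[𝕜] Lp' 𝕜 q)‖ / n = 0 := by
        intro n
        have h := F.tr_smul hp0 n 0 0
        rw [zero_smul, zero_mul] at h
        rw [h]; simp
      simp only [this]; exact tendsto_const_nhds
    · intro S1 S2 _ _ h1 h2
      have h3 := h1.add h2
      rw [add_zero] at h3
      refine squeeze_zero (fun n => by positivity) (fun n => ?_) h3
      rw [F.tr_add, ← add_div]
      exact div_le_div_of_nonneg_right (norm_add_le _ _) (Nat.cast_nonneg _)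
    · intro c' S1 _ h1
      have h3 := h1.const_mul ‖c'‖
      rw [mul_zero] at h3
      refine h3.congr fun n => ?_
      rw [F.tr_smul, norm_mul, mul_div_assoc]
  obtain ⟨n, hn, hn0⟩ := ((hS0.eventually (gt_mem_nhds (show (0:ℝ) < 1 / 2 by norm_num))).and
    (eventually_gt_atTop 0)).exists
  have hnpos : (0:ℝ) < n := by exact_mod_cast hn0
  rw [div_lt_iff₀ hnpos] at hn
  have h1 : F.tr hp0 n (F.R hp0 hpq.le) = F.tr hp0 n (F.R hp0 hpq.le - S) + F.tr hp0 n S := by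
    rw [← F.tr_add, sub_add_cancel]
  rw [F.tr_R] at h1
  have h2 := F.tr_le hp0 hq0 n (F.R hp0 hpq.le - S)
  rw [dist_eq_norm] at hdist
  have h3 : (n : ℝ) ≤ ‖F.tr hp0 n (F.R hp0 hpq.le - S)‖ + ‖F.tr hp0 n S‖ := by
    have := norm_add_le (F.tr hp0 n (F.R hp0 hpq.le - S)) (F.tr hp0 n S)
    rw [← h1] at this
    simpa using this
  nlinarith

/-- **The closed ideal of finitely strictly singular operators is not generated by one
operator.** -/
theorem main (hp : 1 < p) (hpq : p < q) (hq : q < ⊤) (T : Lp' 𝕜 p →L[𝕜] Lp' 𝕜 q) :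
    idealGen T ≠ {S | IsFSS S} := by
  intro heq
  have hp1 : 1 < p.toReal := by
    have := (ENNReal.toReal_lt_toReal one_ne_top (hpq.trans hq).ne).mpr hp
    simpa using this
  have hpq' : p.toReal < q.toReal := (ENNReal.toReal_lt_toReal (hpq.trans hq).ne hq.ne).mpr hpq
  have hq1 : 1 < q.toReal := hp1.trans hpq'
  have hTm : T ∈ idealGen T := by
    refine subset_closure (Submodule.subset_span ⟨ContinuousLinearMap.id 𝕜 _,
      ContinuousLinearMap.id 𝕜 _, ?_⟩)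
    ext x; rfl
  have hTF : IsFSS T := by
    have : T ∈ {S : Lp' 𝕜 p →L[𝕜] Lp' 𝕜 q | IsFSS S} := heq ▸ hTm
    exact this
  -- the diagonal choice
  obtain ⟨m, hm, hTm⟩ := diag (fun k n => ∃ d : ℕ, 1 ≤ d ∧ ∃ b : ℝ, 0 ≤ b ∧ Shrinks T d b ∧
      n * b + d * ‖T‖ ≤ n / ((k : ℝ) + 1) ^ 2) (by
    intro k
    obtain ⟨d, hd⟩ := hTF (1 / (2 * ((k : ℝ) + 1) ^ 2)) (by positivity)
    have hlim : Tendsto (fun n : ℕ => (n : ℝ)) atTop atTop := tendsto_natCast_atTop_atTop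
    filter_upwards [hlim.eventually_ge_atTop (2 * ((k : ℝ) + 1) ^ 2 * ((d + 1 : ℕ) * ‖T‖))]
      with n hn
    refine ⟨d + 1, by omega, 1 / (2 * ((k : ℝ) + 1) ^ 2), by positivity, ?_, ?_⟩
    · intro E hE
      exact hd E (le_trans (by norm_cast; omega) hE)
    · have hk : (0:ℝ) < ((k : ℝ) + 1) ^ 2 := by positivity
      have h1 : ((d + 1 : ℕ) : ℝ) * ‖T‖ ≤ n / (2 * ((k : ℝ) + 1) ^ 2) := by
        rw [le_div_iff₀ (by positivity)]
        linarith
      have h2 : (n : ℝ) * (1 / (2 * ((k : ℝ) + 1) ^ 2)) + n / (2 * ((k : ℝ) + 1) ^ 2) =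
          n / ((k : ℝ) + 1) ^ 2 := by field_simp; ring
      linarith)
  have hpc := Real.HolderConjugate.conjExponent hp1
  have hqc := Real.HolderConjugate.conjExponent hq1
  rcases le_or_gt 2 p.toReal with h2 | h2
  · refine not_gen (famA h2 hpq' hpc hqc m hm) hp1.le hpq' T m hm (c := cB p.toReal) ?_ hTm heq
    intro n
    refine mul_le_mul_of_nonneg_left (dl_rpow_neg_le ?_ ?_) (zero_le_one.trans (one_le_cB _))
    · have h1 := hqc.inv_add_inv_eq_one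
      have h3 : (q.toReal)⁻¹ ≤ 2⁻¹ := inv_anti₀ (by norm_num) (by linarith)
      rw [one_div, one_div]
      norm_num at h3 ⊢; linarith
    · have h1 := hqc.inv_add_inv_eq_one
      have h3 : 0 < (q.toReal)⁻¹ := inv_pos.mpr hqc.pos
      rw [one_div, one_div]
      norm_num; linarith
  · refine not_gen (famB h2 hpc hqc m hm) hp1.le hpq' T m hm
      (c := cB (q.toReal.conjExponent)) ?_ hTm heq
    intro n
    show dl (m n) ^ (1 / 2 - 1 / p.toReal) * cB (q.toReal.conjExponent) ≤ _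
    rw [mul_comm]
    refine mul_le_mul_of_nonneg_left (dl_rpow_neg_le ?_ ?_) (zero_le_one.trans (one_le_cB _))
    · have h3 : 2⁻¹ ≤ (p.toReal)⁻¹ := inv_anti₀ hpc.pos h2.le
      rw [one_div, one_div]
      norm_num at h3 ⊢; linarith
    · have h3 : (p.toReal)⁻¹ ≤ 1 := inv_le_one_of_one_le₀ hp1.le
      rw [one_div, one_div]
      norm_num; linarith

end

end Pool.Agent.W685.FS
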