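import Mathlib

/-!
# A Rosenthal type inequality for sums of independent copies of a symmetric three-valued variable
-/

set_option autoImplicit false

namespace Pool.Agent.W685.FS

open Finset

/-- `x ↦ x |x| ^ r`. -/
noncomputable def phi (r x : ℝ) : ℝ := x * |x| ^ r

lemma phi_diff_nonneg {r a b : ℝ} (hr : 0 ≤ r) (hb : 0 ≤ b) (hab : b ≤ a) :
    a * a ^ r - b * b ^ r ≤ (r + 1) * (a - b) * a ^ r := by
  rcases eq_or_lt_of_le (hb.trans hab) with h0 | h0
  · have : b = 0 := le_antisymm (hab.trans h0.symm.le) hb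
    subst this; rw [← h0]; simp
  · have h1 := one_add_mul_self_le_rpow_one_add (s := b / a - 1) (p := r + 1)
      (by have := div_nonneg hb h0.le; linarith) (by linarith)
    have h2 : (1 + (b / a - 1)) = b / a := by ring
    rw [h2, Real.div_rpow hb h0.le] at h1
    have ha1 : a ^ (r + 1) = a * a ^ r := by rw [Real.rpow_add h0, Real.rpow_one, mul_comm]
    have hpos : 0 < a ^ (r + 1) := Real.rpow_pos_of_pos h0 _
    have hb1 : b ^ (r + 1) = b * b ^ r := by
      rcases eq_or_lt_of_le hb with h | h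
      · rw [← h, Real.zero_rpow (by linarith)]; simp
      · rw [Real.rpow_add h, Real.rpow_one, mul_comm]
    rw [le_div_iff₀ hpos] at h1
    rw [← hb1]
    have h3 : (1 + (r + 1) * (b / a - 1)) * a ^ (r + 1)
        = a * a ^ r - (r + 1) * (a - b) * a ^ r := by
      rw [ha1]; field_simp; ring
    linarith

lemma phi_diff {r a b : ℝ} (hr : 0 ≤ r) :
    |phi r a - phi r b| ≤ (r + 1) * |a - b| * (max |a| |b|) ^ r := by
  have key : ∀ a b : ℝ, |b| ≤ |a| → |phi r a - phi r b| ≤ (r + 1) * |a - b| * |a| ^ r := by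
    intro a b hab
    rcases le_total 0 a with ha | ha
    · rcases le_total 0 b with hb | hb
      · rw [abs_of_nonneg ha, abs_of_nonneg hb] at hab
        unfold phi
        rw [abs_of_nonneg ha, abs_of_nonneg hb, abs_of_nonneg (sub_nonneg.mpr hab)]
        rw [abs_of_nonneg]
        · exact phi_diff_nonneg hr hb hab
        · have := Real.rpow_le_rpow hb hab hr
          have h1 : 0 ≤ b ^ r := Real.rpow_nonneg hb _
          nlinarith
      · unfold phi
        rw [abs_of_nonneg ha, abs_of_nonpos hb] at *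
        have h1 : 0 ≤ (-b) ^ r := Real.rpow_nonneg (by linarith) _
        have h2 : (-b) ^ r ≤ a ^ r := Real.rpow_le_rpow (by linarith) hab hr
        have h3 : 0 ≤ a ^ r := Real.rpow_nonneg ha _
        rw [abs_of_nonneg (by nlinarith), abs_of_nonneg (by linarith)]
        nlinarith [mul_nonneg hr (mul_nonneg (sub_nonneg.mpr (hb.trans ha)) h3)]
    · rcases le_total 0 b with hb | hb
      · unfold phi
        rw [abs_of_nonpos ha, abs_of_nonneg hb] at *
        have h1 : 0 ≤ b ^ r := Real.rpow_nonneg hb _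
        have h2 : b ^ r ≤ (-a) ^ r := Real.rpow_le_rpow hb hab hr
        have h3 : 0 ≤ (-a) ^ r := Real.rpow_nonneg (by linarith) _
        rw [abs_of_nonpos (by nlinarith), abs_of_nonpos (by linarith)]
        nlinarith [mul_nonneg hr (mul_nonneg (sub_nonneg.mpr (ha.trans hb)) h3)]
      · unfold phi
        rw [abs_of_nonpos ha, abs_of_nonpos hb] at *
        have h := phi_diff_nonneg hr (by linarith : 0 ≤ -b) hab
        have h0 : 0 ≤ -b := by linarith
        have h4 := Real.rpow_le_rpow h0 hab hr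
        have h1 : 0 ≤ (-b) ^ r := Real.rpow_nonneg h0 _
        rw [abs_of_nonpos (by nlinarith), abs_of_nonpos (by linarith)]
        nlinarith
  rcases le_total |b| |a| with h | h
  · rw [max_eq_left h]; exact key a b h
  · rw [max_eq_right h, abs_sub_comm, abs_sub_comm a b]; exact key b a h

lemma phi_mul (r x : ℝ) (hr : 0 ≤ r) : x * phi r x = |x| ^ (r + 2) := by
  unfold phi
  rcases eq_or_ne x 0 with h | h
  · subst h; rw [abs_zero, zero_mul, Real.zero_rpow (show r + 2 ≠ 0 by positivity)]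
  · rw [Real.rpow_add (abs_pos.mpr h)]
    have : |x| ^ (2 : ℝ) = x * x := by
      rw [show (2 : ℝ) = ((2 : ℕ) : ℝ) by norm_num, Real.rpow_natCast, sq_abs]; ring
    rw [this]; ring

lemma add_two_rpow {r x y : ℝ} (hr : 0 ≤ r) (hx : 0 ≤ x) (hy : 0 ≤ y) :
    (x + 2 * y) ^ r ≤ 3 ^ r * (x ^ r + y ^ r) := by
  have h1 : 0 ≤ x ^ r := Real.rpow_nonneg hx _
  have h2 : 0 ≤ y ^ r := Real.rpow_nonneg hy _
  have h3 : (0:ℝ) ≤ 3 ^ r := Real.rpow_nonneg (by norm_num) _
  rcases le_total x y with h | h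
  · calc (x + 2 * y) ^ r ≤ (3 * y) ^ r := Real.rpow_le_rpow (by positivity) (by linarith) hr
      _ = 3 ^ r * y ^ r := Real.mul_rpow (by norm_num) hy
      _ ≤ _ := by nlinarith
  · calc (x + 2 * y) ^ r ≤ (3 * x) ^ r := Real.rpow_le_rpow (by positivity) (by linarith) hr
      _ = 3 ^ r * x ^ r := Real.mul_rpow (by norm_num) hx
      _ ≤ _ := by nlinarith

/-- a Young type inequality -/
lemma young {r x c : ℝ} (hr : 0 ≤ r) (hx : 0 ≤ x) (hc : 0 ≤ c) :
    c * x ^ r ≤ x ^ (r + 2) / 2 + (2 * c) ^ ((r + 2) / 2) := by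
  have h0 : 0 ≤ x ^ (r + 2) := Real.rpow_nonneg hx _
  have h1 : 0 ≤ (2 * c) ^ ((r + 2) / 2) := Real.rpow_nonneg (by positivity) _
  rcases eq_or_lt_of_le hx with h | hx0
  · subst h
    rcases eq_or_lt_of_le hr with h | hr0
    · subst h
      have : (2 * c) ^ (((0:ℝ) + 2) / 2) = 2 * c := by norm_num
      rw [this, Real.rpow_zero, Real.zero_rpow (by norm_num)]
      linarith
    · rw [Real.zero_rpow hr0.ne']
      simp only [mul_zero]
      positivity
  · have hsplit : x ^ (r + 2) = x ^ r * x ^ 2 := by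
      rw [Real.rpow_add hx0, show (2 : ℝ) = ((2 : ℕ) : ℝ) by norm_num, Real.rpow_natCast]
    rcases le_total (2 * c) (x ^ 2) with h | h
    · have : 0 ≤ x ^ r := Real.rpow_nonneg hx _
      rw [hsplit]; nlinarith
    · have hxr : x ^ r ≤ (2 * c) ^ (r / 2) := by
        have : x ^ r = (x ^ 2) ^ (r / 2) := by
          rw [← Real.rpow_natCast x 2, ← Real.rpow_mul hx]; congr 1; push_cast; ring
        rw [this]
        exact Real.rpow_le_rpow (by positivity) h (by positivity)
      have h2c : 0 ≤ 2 * c := by positivity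
      have : (2 * c) ^ ((r + 2) / 2) = (2 * c) ^ (r / 2) * (2 * c) := by
        rcases eq_or_lt_of_le h2c with h3 | h3
        · rw [← h3, Real.zero_rpow (by linarith)]; simp
        · rw [show (r + 2) / 2 = r / 2 + 1 by ring, Real.rpow_add h3, Real.rpow_one]
      rw [this]
      have h5 : 0 ≤ (2 * c) ^ (r / 2) := Real.rpow_nonneg h2c _
      nlinarith

section
variable {ι Λ : Type*} [Fintype ι] [DecidableEq ι] [Fintype Λ]

lemma sum_update (i : ι) (F : (ι → Λ) → ℝ) :
    ∑ ω : ι → Λ, ∑ l : Λ, F (Function.update ω i l) = Fintype.card Λ * ∑ ω, F ω := by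
  classical
  have e : Function.Involutive (fun x : (ι → Λ) × Λ => (Function.update x.1 i x.2, x.1 i)) := by
    rintro ⟨ω, l⟩
    simp
  have h := Fintype.sum_equiv e.toPerm
    (fun x : (ι → Λ) × Λ => F (Function.update x.1 i x.2)) (fun x => F x.1) (fun x => rfl)
  rw [Fintype.sum_prod_type, Fintype.sum_prod_type] at h
  rw [h]
  simp [mul_sum]

/-- the sum of the independent copies -/
def S (θ : Λ → ℝ) (a : ι → ℝ) (ω : ι → Λ) : ℝ := ∑ i, a i * θ (ω i)

omit [Fintype Λ] in
lemma S_update (θ : Λ → ℝ) (a : ι → ℝ) (ω : ι → Λ) (i : ι) (l : Λ) :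
    S θ a (Function.update ω i l) = S θ a ω - a i * θ (ω i) + a i * θ l := by
  unfold S
  rw [← Finset.add_sum_erase _ _ (mem_univ i), ← Finset.add_sum_erase _ _ (mem_univ i)]
  have : ∀ j ∈ univ.erase i, a j * θ (Function.update ω i l j) = a j * θ (ω j) := by
    intro j hj
    rw [Function.update_of_ne (ne_of_mem_erase hj)]
  rw [sum_congr rfl this, Function.update_self]
  ring

theorem rosenthal {r : ℝ} (hr : 0 ≤ r) (θ : Λ → ℝ) (h0 : ∑ l, θ l = 0)
    (h1 : ∀ l, θ l = 0 ∨ |θ l| = 1) (δ : ℝ) (hδ : ∑ l, |θ l| = δ * Fintype.card Λ)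
    (hΛ : 0 < Fintype.card Λ) (a : ι → ℝ) :
    ∑ ω : ι → Λ, |S θ a ω| ^ (r + 2) ≤
      (2 * (2 * ((r + 1) * 3 ^ r)) ^ ((r + 2) / 2)) * Fintype.card (ι → Λ) *
        (δ * ∑ i, |a i| ^ (r + 2) + (δ * ∑ i, a i ^ 2) ^ ((r + 2) / 2)) := by
  classical
  set C : ℝ := (r + 1) * 3 ^ r with hC
  have h3r : (1:ℝ) ≤ 3 ^ r := Real.one_le_rpow (by norm_num) hr
  have hC1 : 1 ≤ C := by rw [hC]; nlinarith
  have hcard : (0:ℝ) < Fintype.card Λ := by exact_mod_cast hΛ
  have hδ0 : 0 ≤ δ := by
    have : 0 ≤ ∑ l, |θ l| := sum_nonneg fun _ _ => abs_nonneg _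
    rw [hδ] at this
    exact nonneg_of_mul_nonneg_left this hcard
  -- the estimate for one coordinate
  have hi : ∀ i, ∑ ω : ι → Λ, a i * θ (ω i) * phi r (S θ a ω) ≤
      ∑ ω : ι → Λ, C * δ * (a i ^ 2 * |S θ a ω| ^ r + |a i| ^ (r + 2)) := by
    intro i
    have hup := sum_update i (fun ω => a i * θ (ω i) * phi r (S θ a ω))
    rw [← mul_le_mul_iff_right₀ hcard, ← hup, mul_sum]
    refine sum_le_sum fun ω _ => ?_
    simp only [Function.update_self, S_update]
    set s := S θ a ω - a i * θ (ω i) with hs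
    have hz : ∑ l, a i * θ l * phi r s = 0 := by
      rw [← sum_mul, ← mul_sum, h0]; simp
    have heq : ∑ l, a i * θ l * phi r (s + a i * θ l)
        = ∑ l, a i * θ l * (phi r (s + a i * θ l) - phi r s) := by
      simp only [mul_sub, sum_sub_distrib, hz, sub_zero]
    rw [heq]
    have hle : ∀ l, a i * θ l * (phi r (s + a i * θ l) - phi r s) ≤
        |θ l| * (C * (a i ^ 2 * |S θ a ω| ^ r + |a i| ^ (r + 2))) := by
      intro l
      rcases h1 l with h | h
      · simp [h]
      · have hh : |a i * θ l| = |a i| := by rw [abs_mul, h, mul_one]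
        refine (le_abs_self _).trans ?_
        rw [abs_mul, hh, h, one_mul]
        have hd := phi_diff (a := s + a i * θ l) (b := s) hr
        have hsub : |s + a i * θ l - s| = |a i| := by rw [add_sub_cancel_left, hh]
        rw [hsub] at hd
        have hs2 : |s| ≤ |S θ a ω| + |a i| := by
          have h5 : |a i * θ (ω i)| ≤ |a i| := by
            rcases h1 (ω i) with h | h
            · rw [h]; simp
            · rw [abs_mul, h, mul_one]
          rw [hs]
          exact (abs_sub _ _).trans (by linarith)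
        have hmax : max |s + a i * θ l| |s| ≤ |S θ a ω| + 2 * |a i| := by
          refine max_le ?_ (by have := abs_nonneg (a i); linarith)
          calc |s + a i * θ l| ≤ |s| + |a i * θ l| := abs_add_le _ _
            _ ≤ _ := by rw [hh]; linarith
        have hpow : (max |s + a i * θ l| |s|) ^ r ≤ 3 ^ r * (|S θ a ω| ^ r + |a i| ^ r) :=
          (Real.rpow_le_rpow (le_max_of_le_right (abs_nonneg _)) hmax hr).trans
            (add_two_rpow hr (abs_nonneg _) (abs_nonneg _))
        have hai : |a i| ^ (r + 2) = a i ^ 2 * |a i| ^ r := by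
          rcases eq_or_ne (a i) 0 with h | h
          · rw [h, abs_zero, Real.zero_rpow (by linarith)]; simp
          · rw [Real.rpow_add (abs_pos.mpr h), show (2 : ℝ) = ((2 : ℕ) : ℝ) by norm_num,
              Real.rpow_natCast, sq_abs, mul_comm]
        calc |a i| * |phi r (s + a i * θ l) - phi r s|
            ≤ |a i| * ((r + 1) * |a i| * (3 ^ r * (|S θ a ω| ^ r + |a i| ^ r))) := by
              refine mul_le_mul_of_nonneg_left (hd.trans ?_) (abs_nonneg _)
              exact mul_le_mul_of_nonneg_left hpow (by positivity)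
          _ = C * (a i ^ 2 * |S θ a ω| ^ r + |a i| ^ (r + 2)) := by
              rw [hai, hC, ← sq_abs (a i)]; ring
    refine (sum_le_sum fun l _ => hle l).trans ?_
    rw [← sum_mul, hδ]
    apply le_of_eq
    ring
  -- summation
  have hsum : ∑ ω : ι → Λ, |S θ a ω| ^ (r + 2) =
      ∑ i, ∑ ω : ι → Λ, a i * θ (ω i) * phi r (S θ a ω) := by
    rw [sum_comm]
    refine sum_congr rfl fun ω _ => ?_
    rw [← sum_mul, ← phi_mul r _ hr]; rfl
  set A := ∑ i, a i ^ 2 with hA
  set B := ∑ i, |a i| ^ (r + 2) with hB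
  have hA0 : 0 ≤ A := sum_nonneg fun _ _ => sq_nonneg _
  have hB0 : 0 ≤ B := sum_nonneg fun _ _ => Real.rpow_nonneg (abs_nonneg _) _
  set Z := ∑ ω : ι → Λ, |S θ a ω| ^ (r + 2) with hZ
  set N : ℝ := (Fintype.card (ι → Λ) : ℝ) with hN
  have hN0 : 0 ≤ N := Nat.cast_nonneg _
  have h2 : Z ≤ ∑ ω : ι → Λ, (C * δ * A * |S θ a ω| ^ r + C * δ * B) := by
    rw [hsum]
    refine (sum_le_sum fun i _ => hi i).trans (le_of_eq ?_)
    rw [sum_comm]
    refine sum_congr rfl fun ω _ => ?_
    rw [← mul_sum, sum_add_distrib, ← sum_mul]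
    ring
  have h3 : Z ≤ ∑ ω : ι → Λ, (|S θ a ω| ^ (r + 2) / 2 +
      ((2 * (C * δ * A)) ^ ((r + 2) / 2) + C * δ * B)) := by
    refine h2.trans (sum_le_sum fun ω _ => ?_)
    have := young (x := |S θ a ω|) (c := C * δ * A) hr (abs_nonneg _) (by positivity)
    linarith
  rw [sum_add_distrib, ← sum_div, sum_const, card_univ, nsmul_eq_mul, ← hN] at h3
  have h4 : Z ≤ 2 * N * ((2 * (C * δ * A)) ^ ((r + 2) / 2) + C * δ * B) := by
    linarith
  refine h4.trans ?_
  have h5 : (2 * (C * δ * A)) ^ ((r + 2) / 2) = (2 * C) ^ ((r + 2) / 2) * (δ * A) ^ ((r + 2) / 2) := by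
    rw [← Real.mul_rpow (by positivity) (by positivity)]; congr 1; ring
  rw [h5]
  have h6 : C ≤ (2 * C) ^ ((r + 2) / 2) := by
    calc C ≤ (2 * C) ^ (1 : ℝ) := by rw [Real.rpow_one]; linarith
      _ ≤ _ := Real.rpow_le_rpow_of_exponent_le (by linarith) (by linarith)
  have h7 : C * δ * B ≤ (2 * C) ^ ((r + 2) / 2) * (δ * B) := by
    rw [mul_assoc]
    exact mul_le_mul_of_nonneg_right h6 (by positivity)
  calc 2 * N * ((2 * C) ^ ((r + 2) / 2) * (δ * A) ^ ((r + 2) / 2) + C * δ * B)
      ≤ 2 * N * ((2 * C) ^ ((r + 2) / 2) * (δ * A) ^ ((r + 2) / 2) +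
        (2 * C) ^ ((r + 2) / 2) * (δ * B)) := by
        refine mul_le_mul_of_nonneg_left (by linarith) (by positivity)
    _ = _ := by ring

end

end Pool.Agent.W685.FS
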