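import Pool.Agent.W685.FS.Blk

/-!
# The block operators are finitely strictly singular
-/

set_option autoImplicit false
set_option linter.unusedSectionVars false

namespace Pool.Agent.W685.FS

open Finset Filter Topology ENNReal

variable {𝕜 : Type*} [RCLike 𝕜]

lemma tendsto_nrm_bl {α : ℕ → Type} [∀ n, Fintype (α n)] (e : (Σ n, α n) ≃ ℕ) {p : ℝ≥0∞}
    [Fact (1 ≤ p)] (hp : 0 < p.toReal) (y : Lp' 𝕜 p) :
    Tendsto (fun n => nrm p.toReal (bl e y n)) atTop (𝓝 0) := by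
  have h1 : Summable (fun n => nrm p.toReal (bl e y n) ^ p.toReal) :=
    summable_of_sum_range_le (fun n => Real.rpow_nonneg (nrm_nonneg _ _) _)
      (fun N => sum_nrm_le e hp y N)
  have h2 := h1.tendsto_atTop_zero
  have h3 := h2.rpow_const (p := 1 / p.toReal) (Or.inr (by positivity))
  rw [Real.zero_rpow (by positivity)] at h3
  refine h3.congr fun n => ?_
  rw [← Real.rpow_mul (nrm_nonneg _ _), mul_one_div_cancel hp.ne', Real.rpow_one]

namespace Fam

variable {p q : ℝ≥0∞} [Fact (1 ≤ p)] [Fact (1 ≤ q)] (F : Fam 𝕜 p q)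

/-- the coordinate functionals -/
noncomputable def cf (j : Σ n : ℕ, Fin n) : Lp' 𝕜 p →ₗ[𝕜] 𝕜 where
  toFun y := P (F.h j.1) (bl F.e y j.1) j.2
  map_add' y z := congrFun (map_add (P (F.h j.1)) (bl F.e y j.1) (bl F.e z j.1)) j.2
  map_smul' c y := congrFun (map_smul (P (F.h j.1)) c (bl F.e y j.1)) j.2

lemma cf_tendsto (hp : 0 < p.toReal) (y : Lp' 𝕜 p) :
    Tendsto (fun j => F.cf j y) cofinite (𝓝 0) := by
  rw [Metric.tendsto_nhds]
  intro ε hε
  have hC := F.hC
  have h1 := (tendsto_nrm_bl F.e hp y).eventually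
    (gt_mem_nhds (show 0 < ε / F.C by positivity))
  rw [eventually_atTop] at h1
  obtain ⟨N, hN⟩ := h1
  have hfin : {j : Σ n : ℕ, Fin n | j.1 < N}.Finite := by
    refine Set.Finite.subset (((range N).sigma (fun n => (univ : Finset (Fin n)))).finite_toSet) ?_
    intro j hj
    simpa using hj
  refine Set.Finite.subset hfin ?_
  intro j hj
  by_contra hcon
  refine hj ?_
  simp only [Set.mem_ofPred_eq, not_lt] at hcon
  show dist (F.cf j y) 0 < ε
  rw [dist_zero_right]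
  have h2 : ‖F.cf j y‖ ≤ F.C * nrm p.toReal (bl F.e y j.1) :=
    (norm_le_nrm (by norm_num) (P (F.h j.1) (bl F.e y j.1)) j.2).trans (F.ha j.1 _)
  have h3 := hN j.1 hcon
  rw [lt_div_iff₀ (by linarith)] at h3
  linarith

open Classical in
lemma lower (hp : 1 ≤ p.toReal) (y : Lp' 𝕜 p) (S : Finset (Σ n : ℕ, Fin n))
    (hS : ∀ j ∈ S, ‖F.cf j y‖ = 1) :
    Real.sqrt S.card ≤ F.C ^ p.toReal * ‖y‖ ^ p.toReal := by
  have hp0 : 0 < p.toReal := by linarith
  have hC := F.hC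
  set N := (S.sup fun j => j.1) + 1 with hN
  have hSN : ∀ j ∈ S, j.1 ∈ range N := fun j hj =>
    mem_range.mpr (Nat.lt_succ_of_le (le_sup (f := fun j : (Σ n : ℕ, Fin n) => j.1) hj))
  set kk : ℕ → ℕ := fun n => (S.filter (fun j => j.1 = n)).card with hkk
  have hsum : S.card = ∑ n ∈ range N, kk n := card_eq_sum_card_fiberwise hSN
  have hkS : ∀ n, kk n ≤ S.card := fun n => card_le_card (filter_subset _ _)
  -- each block
  have hblock : ∀ n, (kk n : ℝ) ≤ nrm 2 (P (F.h n) (bl F.e y n)) ^ 2 := by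
    intro n
    rw [nrm_two_sq]
    have h1 : (S.filter (fun j => j.1 = n)) ⊆
        ((univ : Finset (Fin n)).filter (fun i => (⟨n, i⟩ : Σ n : ℕ, Fin n) ∈ S)).image
          (fun i => (⟨n, i⟩ : Σ n : ℕ, Fin n)) := by
      rintro ⟨m, i⟩ hj
      simp only [mem_filter] at hj
      obtain ⟨hj1, rfl⟩ := hj
      simp [hj1]
    have h2 : (kk n : ℝ) ≤
        ((univ : Finset (Fin n)).filter (fun i => (⟨n, i⟩ : Σ n : ℕ, Fin n) ∈ S)).card := by
      exact_mod_cast (card_le_card h1).trans card_image_le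
    refine h2.trans ?_
    rw [card_eq_sum_ones, Nat.cast_sum, sum_filter]
    refine sum_le_sum fun i _ => ?_
    split_ifs with h
    · have := hS _ h
      have h3 : ‖P (F.h n) (bl F.e y n) i‖ = 1 := this
      rw [h3]; norm_num
    · exact sq_nonneg _
  have hterm : ∀ n ∈ range N, (kk n : ℝ) / Real.sqrt S.card ≤
      F.C ^ p.toReal * nrm p.toReal (bl F.e y n) ^ p.toReal := by
    intro n _
    have hCn : 0 ≤ F.C * nrm p.toReal (bl F.e y n) := mul_nonneg (by linarith) (nrm_nonneg _ _)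
    rw [← Real.mul_rpow (by linarith) (nrm_nonneg _ _)]
    rcases Nat.eq_zero_or_pos (kk n) with h0 | h0
    · rw [h0]; simp only [Nat.cast_zero, zero_div]; exact Real.rpow_nonneg hCn _
    · have h1 : (1:ℝ) ≤ kk n := by exact_mod_cast h0
      have h2 : (kk n : ℝ) ≤ S.card := by exact_mod_cast hkS n
      have hs1 : 1 ≤ Real.sqrt (kk n) := Real.one_le_sqrt.mpr h1
      have h3 : Real.sqrt (kk n) ≤ F.C * nrm p.toReal (bl F.e y n) := by
        refine le_trans ?_ (F.ha n _)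
        rw [Real.sqrt_le_left (nrm_nonneg _ _)]
        exact hblock n
      have h4 : Real.sqrt (kk n) ≤ (F.C * nrm p.toReal (bl F.e y n)) ^ p.toReal := by
        calc Real.sqrt (kk n) = Real.sqrt (kk n) ^ (1:ℝ) := (Real.rpow_one _).symm
          _ ≤ Real.sqrt (kk n) ^ p.toReal := Real.rpow_le_rpow_of_exponent_le hs1 hp
          _ ≤ _ := Real.rpow_le_rpow (by linarith) h3 hp0.le
      refine le_trans ?_ h4
      rw [div_le_iff₀ (Real.sqrt_pos.mpr (by linarith))]
      calc (kk n : ℝ) = Real.sqrt (kk n) * Real.sqrt (kk n) := (Real.mul_self_sqrt (by linarith)).symm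
        _ ≤ _ := mul_le_mul_of_nonneg_left (Real.sqrt_le_sqrt h2) (by linarith)
  have h5 := sum_le_sum hterm
  rw [← sum_div, ← Nat.cast_sum, ← hsum, Real.div_sqrt, ← mul_sum] at h5
  exact h5.trans (mul_le_mul_of_nonneg_left (sum_nrm_le F.e hp0 y N) (by positivity))

lemma upper (hp : 1 ≤ p.toReal) (hpq : p.toReal < q.toReal) {ε : ℝ} (hε : 0 < ε) {L : ℝ}
    (hL : 0 < L) {n0 : ℕ}
    (hc : ∀ n, n0 ≤ n → ∀ y : F.α n → 𝕜,
      (∀ i, ‖P (F.h n) y i‖ ≤ 1) → L ≤ nrm 2 (P (F.h n) y) →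
        nrm q.toReal (K (F.k n) (P (F.h n) y)) ≤ ε * nrm p.toReal y)
    (y : Lp' 𝕜 p) (hy1 : ∀ j, ‖F.cf j y‖ ≤ 1) (hy0 : ∀ j, j.1 < n0 → F.cf j y = 0) (N : ℕ) :
    ∑ n ∈ range N, nrm q.toReal (bl F.f (F.Rf y) n) ^ q.toReal ≤
      ε ^ q.toReal * ‖y‖ ^ q.toReal +
        ((F.C * L) ^ (q.toReal - p.toReal) * (F.C ^ 2) ^ p.toReal) * ‖y‖ ^ p.toReal := by
  have hp0 : 0 < p.toReal := by linarith
  have hq0 : 0 < q.toReal := by linarith
  have hC := F.hC
  set CL := (F.C * L) ^ (q.toReal - p.toReal) * (F.C ^ 2) ^ p.toReal with hCL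
  have hCL0 : 0 ≤ CL := by positivity
  have hterm : ∀ n ∈ range N, nrm q.toReal (bl F.f (F.Rf y) n) ^ q.toReal ≤
      ε ^ q.toReal * nrm p.toReal (bl F.e y n) ^ q.toReal +
        CL * nrm p.toReal (bl F.e y n) ^ p.toReal := by
    intro n _
    rw [bl_Rf]
    have hnn := nrm_nonneg p.toReal (bl F.e y n)
    have ha : 0 ≤ ε ^ q.toReal * nrm p.toReal (bl F.e y n) ^ q.toReal := by positivity
    have hb : 0 ≤ CL * nrm p.toReal (bl F.e y n) ^ p.toReal := by positivity
    rcases lt_or_ge n n0 with hn | hn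
    · have : F.R1 n (bl F.e y n) = 0 := by
        have hP : P (F.h n) (bl F.e y n) = 0 := by
          ext i; exact hy0 ⟨n, i⟩ hn
        show K (F.k n) (P (F.h n) (bl F.e y n)) = 0
        rw [hP, map_zero]
      rw [this, nrm_zero hq0, Real.zero_rpow hq0.ne']
      linarith
    · rcases le_or_gt L (nrm 2 (P (F.h n) (bl F.e y n))) with h1 | h1
      · have h2 := hc n hn (bl F.e y n) (fun i => hy1 ⟨n, i⟩) h1
        have h3 := Real.rpow_le_rpow (nrm_nonneg _ _) h2 hq0.le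
        rw [Real.mul_rpow hε.le hnn] at h3
        exact h3.trans (le_add_of_nonneg_right hb)
      · refine le_trans ?_ (le_add_of_nonneg_left ha)
        set a := nrm q.toReal (F.R1 n (bl F.e y n)) with hadef
        have ha0 : 0 ≤ a := nrm_nonneg _ _
        have ha1 : a ≤ F.C * L :=
          (F.hb n _).trans (mul_le_mul_of_nonneg_left h1.le (by linarith))
        have ha2 : a ≤ F.C ^ 2 * nrm p.toReal (bl F.e y n) := F.R1_le n _
        rcases eq_or_lt_of_le ha0 with h | h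
        · rw [← h, Real.zero_rpow hq0.ne']; exact hb
        · rw [show q.toReal = (q.toReal - p.toReal) + p.toReal by ring, Real.rpow_add h]
          calc a ^ (q.toReal - p.toReal) * a ^ p.toReal
              ≤ (F.C * L) ^ (q.toReal - p.toReal) *
                (F.C ^ 2 * nrm p.toReal (bl F.e y n)) ^ p.toReal := by
                refine mul_le_mul (Real.rpow_le_rpow ha0 ha1 (by linarith))
                  (Real.rpow_le_rpow ha0 ha2 hp0.le) (Real.rpow_nonneg ha0 _) (by positivity)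
            _ = _ := by rw [Real.mul_rpow (by positivity) hnn]; ring
  refine (sum_le_sum hterm).trans ?_
  rw [sum_add_distrib, ← mul_sum, ← mul_sum]
  exact add_le_add (mul_le_mul_of_nonneg_left (F.sum_pq hp0 hpq.le y N) (by positivity))
    (mul_le_mul_of_nonneg_left (sum_nrm_le F.e hp0 y N) hCL0)

open Classical in
theorem shrinks_R (hp : 1 ≤ p.toReal) (hp0 : 0 < p.toReal) (hpq : p.toReal < q.toReal)
    {ε : ℝ} (hε : 0 < ε) : ∃ D : ℕ, Shrinks (F.R hp0 hpq.le) D ε := by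
  have hq0 : 0 < q.toReal := by linarith
  have hC := F.hC
  have hε1 : 0 < ε / 2 := by positivity
  obtain ⟨L, hL, n0, hc⟩ := F.hc (ε / 2) hε1
  set CL := (F.C * L) ^ (q.toReal - p.toReal) * (F.C ^ 2) ^ p.toReal with hCL
  have hCL0 : 0 ≤ CL := by positivity
  set A : ℝ := CL / (ε / 2) ^ q.toReal with hA
  have hA0 : 0 ≤ A := by positivity
  set Λ : ℝ := A ^ (1 / (q.toReal - p.toReal)) with hΛ
  have hΛ0 : 0 ≤ Λ := Real.rpow_nonneg hA0 _
  set K0 : ℕ := ⌈(Λ ^ p.toReal * F.C ^ p.toReal) ^ 2⌉₊ + 1 with hK0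
  set J0 : Finset (Σ n : ℕ, Fin n) := (range n0).sigma (fun n => univ) with hJ0
  refine ⟨K0 + J0.card, ?_⟩
  intro E hE
  let l : (Σ n : ℕ, Fin n) → E →ₗ[𝕜] 𝕜 := fun j => (F.cf j) ∘ₗ E.subtype
  by_cases hinj : ∀ v : E, (∀ j, l j v = 0) → v = 0
  · obtain ⟨v, hv1, hv0, S, hSc, hS⟩ := milman l (fun v => F.cf_tendsto hp0 v) hinj J0 K0 hE
    have hlow := F.lower hp (v : Lp' 𝕜 p) S hS
    have hlow2 : Λ ^ p.toReal ≤ ‖(v : Lp' 𝕜 p)‖ ^ p.toReal := by
      have h1 : Λ ^ p.toReal * F.C ^ p.toReal ≤ Real.sqrt S.card := by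
        rw [Real.le_sqrt (by positivity) (Nat.cast_nonneg _), hSc, hK0]
        push_cast
        exact (Nat.le_ceil _).trans (by linarith)
      have h2 := h1.trans hlow
      rw [mul_comm] at h2
      exact le_of_mul_le_mul_left h2 (by positivity)
    have hΛv : Λ ≤ ‖(v : Lp' 𝕜 p)‖ := (Real.rpow_le_rpow_iff hΛ0 (norm_nonneg _) hp0).mp hlow2
    have hv_ne : (v : Lp' 𝕜 p) ≠ 0 := by
      intro h
      have hne : S.Nonempty := by
        rw [← card_pos, hSc]; omega
      obtain ⟨j, hj⟩ := hne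
      have := hS j hj
      have h3 : l j v = 0 := by
        show F.cf j (v : Lp' 𝕜 p) = 0
        rw [h, map_zero]
      rw [h3, norm_zero] at this
      norm_num at this
    have hvpos : 0 < ‖(v : Lp' 𝕜 p)‖ := norm_pos_iff.mpr hv_ne
    refine ⟨v, v.2, hv_ne, ?_⟩
    refine norm_le_of_blocks F.f hq0 _ (by positivity) fun N => ?_
    refine (F.upper hp hpq hε1 hL hc (v : Lp' 𝕜 p) hv1 (fun j hj => ?_) N).trans ?_
    · exact hv0 j (by simp [hJ0, hj])
    · have hkey : CL * ‖(v : Lp' 𝕜 p)‖ ^ p.toReal ≤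
          (ε / 2) ^ q.toReal * ‖(v : Lp' 𝕜 p)‖ ^ q.toReal := by
        have h1 : A ≤ ‖(v : Lp' 𝕜 p)‖ ^ (q.toReal - p.toReal) := by
          have : A = Λ ^ (q.toReal - p.toReal) := by
            rw [hΛ, ← Real.rpow_mul hA0, one_div_mul_cancel (by linarith), Real.rpow_one]
          rw [this]
          exact Real.rpow_le_rpow hΛ0 hΛv (by linarith)
        rw [hA, div_le_iff₀ (by positivity)] at h1
        have h2 : ‖(v : Lp' 𝕜 p)‖ ^ q.toReal =
            ‖(v : Lp' 𝕜 p)‖ ^ (q.toReal - p.toReal) * ‖(v : Lp' 𝕜 p)‖ ^ p.toReal := by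
          rw [← Real.rpow_add hvpos]; congr 1; ring
        rw [h2]
        have := mul_le_mul_of_nonneg_right h1 (Real.rpow_nonneg hvpos.le p.toReal)
        linarith
      have h3 : (ε * ‖(v : Lp' 𝕜 p)‖) ^ q.toReal =
          2 ^ q.toReal * ((ε / 2) ^ q.toReal * ‖(v : Lp' 𝕜 p)‖ ^ q.toReal) := by
        rw [← Real.mul_rpow (by positivity) (by positivity),
          ← Real.mul_rpow (by positivity) (by positivity)]
        congr 1; ring
      rw [h3]
      have h4 : (2:ℝ) ≤ 2 ^ q.toReal := by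
        calc (2:ℝ) = 2 ^ (1:ℝ) := (Real.rpow_one _).symm
          _ ≤ _ := Real.rpow_le_rpow_of_exponent_le (by norm_num) (by linarith)
      have h5 : 0 ≤ (ε / 2) ^ q.toReal * ‖(v : Lp' 𝕜 p)‖ ^ q.toReal := by positivity
      nlinarith
  · push Not at hinj
    obtain ⟨v, hv, hv0⟩ := hinj
    refine ⟨v, v.2, fun h => hv0 (Subtype.ext h), ?_⟩
    have : ∀ n, bl F.f (F.Rf (v : Lp' 𝕜 p)) n = 0 := by
      intro n
      rw [bl_Rf]
      have hP : P (F.h n) (bl F.e (v : Lp' 𝕜 p) n) = 0 := by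
        ext i; exact hv ⟨n, i⟩
      show K (F.k n) (P (F.h n) (bl F.e (v : Lp' 𝕜 p) n)) = 0
      rw [hP, map_zero]
    refine norm_le_of_blocks F.f hq0 _ (by positivity) fun N => ?_
    have h0 : ∀ n ∈ range N, nrm q.toReal (bl F.f (F.R hp0 hpq.le (v : Lp' 𝕜 p)) n) ^ q.toReal = 0 := by
      intro n _
      have h1 : bl F.f (F.R hp0 hpq.le (v : Lp' 𝕜 p)) n = 0 := this n
      rw [h1, nrm_zero hq0, Real.zero_rpow hq0.ne']
    rw [sum_congr rfl h0, sum_const_zero]
    positivity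

end Fam

end Pool.Agent.W685.FS
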