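import Pool.Agent.W685.FS.Ros

/-!
# Systems of independent three-valued functions in `ℓ_s ^ N`
-/

set_option autoImplicit false

namespace Pool.Agent.W685.FS

open Finset

variable {𝕜 : Type*} [RCLike 𝕜]

/-- counting `ℓ_p` norm -/
noncomputable def nrm {α : Type*} [Fintype α] (p : ℝ) (f : α → 𝕜) : ℝ := (∑ ω, ‖f ω‖ ^ p) ^ (1 / p)

lemma nrm_nonneg {α : Type*} [Fintype α] (p : ℝ) (f : α → 𝕜) : 0 ≤ nrm p f :=
  Real.rpow_nonneg (sum_nonneg fun _ _ => Real.rpow_nonneg (norm_nonneg _) _) _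

lemma nrm_rpow {α : Type*} [Fintype α] {p : ℝ} (hp : 0 < p) (f : α → 𝕜) :
    nrm p f ^ p = ∑ ω, ‖f ω‖ ^ p := by
  unfold nrm
  rw [← Real.rpow_mul (sum_nonneg fun _ _ => Real.rpow_nonneg (norm_nonneg _) _),
    one_div_mul_cancel hp.ne', Real.rpow_one]

lemma nrm_two_sq {α : Type*} [Fintype α] (f : α → 𝕜) : nrm 2 f ^ 2 = ∑ ω, ‖f ω‖ ^ 2 := by
  have := nrm_rpow (p := 2) (by norm_num) f
  simpa using this

lemma nrm_le {α : Type*} [Fintype α] {p : ℝ} (hp : 0 < p) {f : α → 𝕜} {c : ℝ} (hc : 0 ≤ c)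
    (h : ∑ ω, ‖f ω‖ ^ p ≤ c ^ p) : nrm p f ≤ c := by
  rw [← nrm_rpow hp] at h
  exact (Real.rpow_le_rpow_iff (nrm_nonneg _ _) hc hp).mp h

lemma norm_le_nrm {α : Type*} [Fintype α] {p : ℝ} (hp : 0 < p) (f : α → 𝕜) (ω : α) :
    ‖f ω‖ ≤ nrm p f := by
  refine (Real.rpow_le_rpow_iff (norm_nonneg _) (nrm_nonneg _ _) hp).mp ?_
  rw [nrm_rpow hp]
  exact single_le_sum (f := fun ω => ‖f ω‖ ^ p)
    (fun _ _ => Real.rpow_nonneg (norm_nonneg _) _) (mem_univ ω)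

lemma holder {α : Type*} [Fintype α] {p q : ℝ} (hpq : p.HolderConjugate q) (f g : α → 𝕜) :
    ‖∑ ω, f ω * g ω‖ ≤ nrm p f * nrm q g := by
  refine (norm_sum_le _ _).trans ?_
  have := Real.inner_le_Lp_mul_Lq univ (fun ω => ‖f ω‖) (fun ω => ‖g ω‖) hpq
  simpa [nrm, norm_mul] using this

/-- the pairings with the `h i` -/
noncomputable def P {α ι : Type*} [Fintype α] (h : ι → α → 𝕜) : (α → 𝕜) →ₗ[𝕜] (ι → 𝕜) where
  toFun y i := ∑ ω, y ω * h i ω
  map_add' y z := by ext i; simp [add_mul, sum_add_distrib]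
  map_smul' c y := by ext i; simp [mul_sum, mul_assoc]

/-- the combinations of the `k i` -/
noncomputable def K {α ι : Type*} [Fintype ι] (k : ι → α → 𝕜) : (ι → 𝕜) →ₗ[𝕜] (α → 𝕜) where
  toFun u ω := ∑ i, u i * k i ω
  map_add' y z := by ext i; simp [add_mul, sum_add_distrib]
  map_smul' c y := by ext i; simp [mul_sum, mul_assoc]

lemma P_apply {α ι : Type*} [Fintype α] (h : ι → α → 𝕜) (y : α → 𝕜) (i : ι) :
    P h y i = ∑ ω, y ω * h i ω := rfl

lemma K_apply {α ι : Type*} [Fintype ι] (k : ι → α → 𝕜) (u : ι → 𝕜) (ω : α) :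
    K k u ω = ∑ i, u i * k i ω := rfl

lemma pair_eq {α ι : Type*} [Fintype α] [Fintype ι] (h : ι → α → 𝕜) (y : α → 𝕜) (a : ι → 𝕜) :
    ∑ i, P h y i * a i = ∑ ω, y ω * K h a ω := by
  simp only [P_apply, K_apply, mul_sum, sum_mul]
  rw [sum_comm]
  exact sum_congr rfl fun ω _ => sum_congr rfl fun i _ => by ring

lemma sq_nrm_P {α ι : Type*} [Fintype α] [Fintype ι] {p q : ℝ} (hpq : p.HolderConjugate q)
    (h : ι → α → 𝕜) (y : α → 𝕜) :
    nrm 2 (P h y) ^ 2 ≤ nrm p y * nrm q (K h (star (P h y))) := by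
  rw [nrm_two_sq]
  have h1 : (∑ i, ‖P h y i‖ ^ 2 : ℝ) = ‖∑ i, P h y i * star (P h y) i‖ := by
    have : ∑ i, P h y i * star (P h y) i = ((∑ i, ‖P h y i‖ ^ 2 : ℝ) : 𝕜) := by
      rw [RCLike.ofReal_sum]
      refine sum_congr rfl fun i _ => ?_
      rw [Pi.star_apply, RCLike.star_def, RCLike.mul_conj]; push_cast; rfl
    rw [this, RCLike.norm_ofReal, abs_of_nonneg (sum_nonneg fun _ _ => sq_nonneg _)]
  rw [h1, pair_eq]
  exact holder hpq _ _

lemma nrm_star {ι : Type*} [Fintype ι] (p : ℝ) (u : ι → 𝕜) : nrm p (star u) = nrm p u := by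
  unfold nrm; simp

/-- duality -/
lemma dual_bound {α ι : Type*} [Fintype α] [Fintype ι] {p q : ℝ} (hpq : p.HolderConjugate q)
    (h : ι → α → 𝕜) {c : ℝ} (hc : 0 ≤ c) (hK : ∀ a, nrm q (K h a) ≤ c * nrm 2 a) (y : α → 𝕜) :
    nrm 2 (P h y) ≤ c * nrm p y := by
  have h1 := sq_nrm_P hpq h y
  have h2 := hK (star (P h y))
  rw [nrm_star] at h2
  rcases eq_or_lt_of_le (nrm_nonneg 2 (P h y)) with h0 | h0
  · rw [← h0]
    exact mul_nonneg hc (nrm_nonneg _ _)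
  · have h3 := mul_le_mul_of_nonneg_left h2 (nrm_nonneg p y)
    have h4 : nrm 2 (P h y) * nrm 2 (P h y) ≤ nrm 2 (P h y) * (c * nrm p y) := by nlinarith
    exact le_of_mul_le_mul_left h4 h0

/-- the three-valued function on `Fin (m + 2)` -/
def th (m : ℕ) (j : Fin (m + 2)) : ℝ := if j = 0 then 1 else if j = 1 then -1 else 0

lemma th_cases (m : ℕ) (j : Fin (m + 2)) : th m j = 0 ∨ |th m j| = 1 := by
  unfold th; split_ifs <;> simp

lemma sum_th (m : ℕ) : ∑ j, th m j = 0 := by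
  unfold th
  rw [Fin.sum_univ_succ, Fin.sum_univ_succ]
  simp [Fin.ext_iff]

lemma sum_abs_th (m : ℕ) : ∑ j, |th m j| = 2 := by
  unfold th
  rw [Fin.sum_univ_succ, Fin.sum_univ_succ]
  simp [Fin.ext_iff]
  norm_num

/-- the density -/
noncomputable def dl (m : ℕ) : ℝ := 2 / (m + 2)

lemma dl_pos (m : ℕ) : 0 < dl m := by unfold dl; positivity

lemma dl_le_one (m : ℕ) : dl m ≤ 1 := by
  unfold dl; rw [div_le_one (by positivity)]; have : (0:ℝ) ≤ m := m.cast_nonneg; linarith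

lemma dl_zero : dl 0 = 1 := by unfold dl; norm_num

lemma sum_abs_th' (m : ℕ) : ∑ j, |th m j| = dl m * Fintype.card (Fin (m + 2)) := by
  rw [sum_abs_th, Fintype.card_fin]; unfold dl; push_cast; field_simp

/-- the constant in Rosenthal's inequality for real coefficients -/
noncomputable def cR (s : ℝ) : ℝ := 2 * (2 * ((s - 2 + 1) * 3 ^ (s - 2))) ^ (s / 2)

lemma cR_nonneg {s : ℝ} (hs : 2 ≤ s) : 0 ≤ cR s := by
  unfold cR
  have : (0:ℝ) ≤ 3 ^ (s - 2) := Real.rpow_nonneg (by norm_num) _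
  have h1 : 0 ≤ (2 * ((s - 2 + 1) * 3 ^ (s - 2))) := by nlinarith
  have := Real.rpow_nonneg h1 (s / 2)
  positivity

/-- the space -/
abbrev Om (n m : ℕ) : Type := Fin n → Fin (m + 2)

lemma card_Om_pos (n m : ℕ) : (0:ℝ) < Fintype.card (Om n m) := by
  have : 0 < Fintype.card (Om n m) := Fintype.card_pos
  exact_mod_cast this

lemma ros_real {s : ℝ} (hs : 2 ≤ s) (n m : ℕ) (a : Fin n → ℝ) :
    ∑ ω : Om n m, |S (th m) a ω| ^ s ≤ cR s * Fintype.card (Om n m) *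
      (dl m * ∑ i, |a i| ^ s + (dl m * ∑ i, a i ^ 2) ^ (s / 2)) := by
  have := rosenthal (r := s - 2) (by linarith) (th m) (sum_th m) (th_cases m) (dl m)
    (sum_abs_th' m) (by simp) a
  simpa [cR] using this

lemma add_rpow_le' {s x y : ℝ} (hs : 0 ≤ s) (hx : 0 ≤ x) (hy : 0 ≤ y) :
    (x + y) ^ s ≤ 2 ^ s * (x ^ s + y ^ s) := by
  have h1 : 0 ≤ x ^ s := Real.rpow_nonneg hx _
  have h2 : 0 ≤ y ^ s := Real.rpow_nonneg hy _
  have h3 : (0:ℝ) ≤ 2 ^ s := Real.rpow_nonneg (by norm_num) _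
  rcases le_total x y with h | h
  · calc (x + y) ^ s ≤ (2 * y) ^ s := Real.rpow_le_rpow (by positivity) (by linarith) hs
      _ = 2 ^ s * y ^ s := Real.mul_rpow (by norm_num) hy
      _ ≤ _ := by nlinarith
  · calc (x + y) ^ s ≤ (2 * x) ^ s := Real.rpow_le_rpow (by positivity) (by linarith) hs
      _ = 2 ^ s * x ^ s := Real.mul_rpow (by norm_num) hx
      _ ≤ _ := by nlinarith

/-- the constant in Rosenthal's inequality -/
noncomputable def cK (s : ℝ) : ℝ := 2 ^ s * (2 * cR s)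

lemma cK_nonneg {s : ℝ} (hs : 2 ≤ s) : 0 ≤ cK s := by
  unfold cK
  have := cR_nonneg hs
  have : (0:ℝ) ≤ 2 ^ s := Real.rpow_nonneg (by norm_num) _
  positivity

lemma re_sum (n m : ℕ) (a : Fin n → 𝕜) (ω : Om n m) :
    RCLike.re (∑ i, a i * ((th m (ω i) : ℝ) : 𝕜)) = S (th m) (fun i => RCLike.re (a i)) ω := by
  unfold S
  rw [map_sum]
  refine sum_congr rfl fun i _ => ?_
  rw [mul_comm, RCLike.re_ofReal_mul, mul_comm]

lemma im_sum (n m : ℕ) (a : Fin n → 𝕜) (ω : Om n m) :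
    RCLike.im (∑ i, a i * ((th m (ω i) : ℝ) : 𝕜)) = S (th m) (fun i => RCLike.im (a i)) ω := by
  unfold S
  rw [map_sum]
  refine sum_congr rfl fun i _ => ?_
  rw [mul_comm, RCLike.im_ofReal_mul, mul_comm]

lemma norm_le_re_im (z : 𝕜) : ‖z‖ ≤ |RCLike.re z| + |RCLike.im z| := by
  refine abs_le_of_sq_le_sq' ?_ (by positivity) |>.2
  rw [RCLike.norm_sq_eq_def]
  nlinarith [abs_nonneg (RCLike.re z), abs_nonneg (RCLike.im z), sq_abs (RCLike.re z),
    sq_abs (RCLike.im z), mul_nonneg (abs_nonneg (RCLike.re z)) (abs_nonneg (RCLike.im z))]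

lemma ros_cx {s : ℝ} (hs : 2 ≤ s) (n m : ℕ) (a : Fin n → 𝕜) :
    ∑ ω : Om n m, ‖∑ i, a i * ((th m (ω i) : ℝ) : 𝕜)‖ ^ s ≤ cK s * Fintype.card (Om n m) *
      (dl m * ∑ i, ‖a i‖ ^ s + (dl m * ∑ i, ‖a i‖ ^ 2) ^ (s / 2)) := by
  have hs0 : 0 ≤ s := by linarith
  have hd := dl_pos m
  set R := dl m * ∑ i, ‖a i‖ ^ s + (dl m * ∑ i, ‖a i‖ ^ 2) ^ (s / 2) with hR
  have hN := card_Om_pos n m
  have hc := cR_nonneg hs
  have h1 : ∀ b : Fin n → ℝ, (∀ i, |b i| ≤ ‖a i‖) →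
      ∑ ω : Om n m, |S (th m) b ω| ^ s ≤ cR s * Fintype.card (Om n m) * R := by
    intro b hb
    refine (ros_real hs n m b).trans (mul_le_mul_of_nonneg_left ?_ (by positivity))
    refine add_le_add (mul_le_mul_of_nonneg_left (sum_le_sum fun i _ => ?_) hd.le) ?_
    · exact Real.rpow_le_rpow (abs_nonneg _) (hb i) hs0
    · refine Real.rpow_le_rpow (by positivity) ?_ (by positivity)
      refine mul_le_mul_of_nonneg_left (sum_le_sum fun i _ => ?_) hd.le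
      rw [← sq_abs]; exact pow_le_pow_left₀ (abs_nonneg _) (hb i) 2
  have h2 : ∀ ω : Om n m, ‖∑ i, a i * ((th m (ω i) : ℝ) : 𝕜)‖ ^ s ≤
      2 ^ s * (|S (th m) (fun i => RCLike.re (a i)) ω| ^ s +
        |S (th m) (fun i => RCLike.im (a i)) ω| ^ s) := by
    intro ω
    refine le_trans ?_ (add_rpow_le' hs0 (abs_nonneg _) (abs_nonneg _))
    rw [← re_sum, ← im_sum]
    exact Real.rpow_le_rpow (norm_nonneg _) (norm_le_re_im _) hs0
  refine (sum_le_sum fun ω _ => h2 ω).trans ?_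
  rw [← mul_sum, sum_add_distrib]
  have h3 := h1 (fun i => RCLike.re (a i)) (fun i => RCLike.abs_re_le_norm _)
  have h4 := h1 (fun i => RCLike.im (a i)) (fun i => RCLike.abs_im_le_norm _)
  calc _ ≤ 2 ^ s * (cR s * Fintype.card (Om n m) * R + cR s * Fintype.card (Om n m) * R) :=
        mul_le_mul_of_nonneg_left (add_le_add h3 h4) (Real.rpow_nonneg (by norm_num) _)
    _ = _ := by unfold cK; ring

lemma sum_abs_coord (n m : ℕ) (i : Fin n) :
    ∑ ω : Om n m, |th m (ω i)| = dl m * Fintype.card (Om n m) := by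
  have h := sum_update (Λ := Fin (m + 2)) i (fun ω : Om n m => |th m (ω i)|)
  simp only [Function.update_self, sum_abs_th', sum_const, card_univ, nsmul_eq_mul] at h
  have hc : (0:ℝ) < Fintype.card (Fin (m + 2)) := by simp; positivity
  have : (Fintype.card (Fin (m + 2)) : ℝ) * ∑ ω : Om n m, |th m (ω i)| =
      Fintype.card (Fin (m + 2)) * (dl m * Fintype.card (Om n m)) := by
    rw [← h]; ring
  exact mul_left_cancel₀ hc.ne' this

lemma sum_th_mul (n m : ℕ) (i j : Fin n) :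
    ∑ ω : Om n m, th m (ω i) * th m (ω j) = if i = j then dl m * Fintype.card (Om n m) else 0 := by
  split_ifs with hij
  · subst hij
    rw [← sum_abs_coord n m i]
    refine sum_congr rfl fun ω _ => ?_
    rcases th_cases m (ω i) with h | h
    · simp [h]
    · rw [h, ← abs_mul_abs_self, h]; norm_num
  · have h := sum_update (Λ := Fin (m + 2)) i (fun ω : Om n m => th m (ω i) * th m (ω j))
    simp only [Function.update_self, Function.update_of_ne (Ne.symm hij), ← sum_mul, sum_th,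
      zero_mul, sum_const_zero] at h
    have hc : (Fintype.card (Fin (m + 2)) : ℝ) ≠ 0 := by simp; positivity
    exact (mul_eq_zero.mp h.symm).resolve_left hc

/-- `D = δ N` -/
noncomputable def DD (n m : ℕ) : ℝ := dl m * Fintype.card (Om n m)

lemma DD_pos (n m : ℕ) : 0 < DD n m := mul_pos (dl_pos m) (card_Om_pos n m)

lemma sum_sq_cx (n m : ℕ) (a : Fin n → 𝕜) :
    ∑ ω : Om n m, ‖∑ i, a i * ((th m (ω i) : ℝ) : 𝕜)‖ ^ 2 = DD n m * ∑ i, ‖a i‖ ^ 2 := by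
  have hr : ∀ b : Fin n → ℝ, ∑ ω : Om n m, S (th m) b ω ^ 2 = DD n m * ∑ i, b i ^ 2 := by
    intro b
    have h1 : ∀ ω : Om n m, S (th m) b ω ^ 2 =
        ∑ i, ∑ j, b i * b j * (th m (ω i) * th m (ω j)) := by
      intro ω
      unfold S
      rw [sq, sum_mul_sum]
      exact sum_congr rfl fun i _ => sum_congr rfl fun j _ => by ring
    simp only [h1]
    rw [sum_comm, mul_sum]
    refine sum_congr rfl fun i _ => ?_
    rw [sum_comm]
    simp only [← mul_sum, sum_th_mul]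
    simp only [mul_ite, mul_zero, sum_ite_eq, mem_univ, if_true]
    unfold DD; ring
  have h2 : ∀ ω : Om n m, ‖∑ i, a i * ((th m (ω i) : ℝ) : 𝕜)‖ ^ 2 =
      S (th m) (fun i => RCLike.re (a i)) ω ^ 2 + S (th m) (fun i => RCLike.im (a i)) ω ^ 2 := by
    intro ω
    rw [RCLike.norm_sq_eq_def, re_sum, im_sum]; ring
  simp only [h2, sum_add_distrib, hr]
  rw [← mul_add, ← sum_add_distrib]
  congr 1
  refine sum_congr rfl fun i _ => ?_
  rw [RCLike.norm_sq_eq_def]; ring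

/-- the normalized system -/
noncomputable def vec (s : ℝ) (n m : ℕ) (i : Fin n) (ω : Om n m) : 𝕜 :=
  ((DD n m ^ (-(1 / s)) * th m (ω i) : ℝ) : 𝕜)

lemma norm_K_vec {s : ℝ} (hs : 0 < s) (n m : ℕ) (a : Fin n → 𝕜) (ω : Om n m) :
    ‖K (vec s n m) a ω‖ ^ s = (DD n m)⁻¹ * ‖∑ i, a i * ((th m (ω i) : ℝ) : 𝕜)‖ ^ s := by
  have hD := DD_pos n m
  have : K (vec s n m) a ω = ((DD n m ^ (-(1 / s)) : ℝ) : 𝕜) * ∑ i, a i * ((th m (ω i) : ℝ) : 𝕜) := by
    rw [K_apply, mul_sum]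
    refine sum_congr rfl fun i _ => ?_
    unfold vec; push_cast; ring
  rw [this, norm_mul, RCLike.norm_ofReal, abs_of_nonneg (Real.rpow_nonneg hD.le _),
    Real.mul_rpow (Real.rpow_nonneg hD.le _) (norm_nonneg _), ← Real.rpow_mul hD.le]
  congr 1
  rw [show -(1 / s) * s = -1 by field_simp, Real.rpow_neg_one]

/-- **(F1)** -/
lemma F1 {s : ℝ} (hs : 2 ≤ s) (n m : ℕ) (a : Fin n → 𝕜) :
    nrm s (K (vec s n m) a) ^ s ≤
      cK s * (∑ i, ‖a i‖ ^ s + dl m ^ (s / 2 - 1) * nrm 2 a ^ s) := by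
  have hs0 : 0 < s := by linarith
  have hD := DD_pos n m
  have hd := dl_pos m
  rw [nrm_rpow hs0]
  simp only [norm_K_vec hs0]
  rw [← mul_sum]
  have h := ros_cx hs n m a
  have hX : nrm 2 a ^ s = (∑ i, ‖a i‖ ^ 2) ^ (s / 2) := by
    rw [← nrm_two_sq, ← Real.rpow_natCast (nrm 2 a) 2, ← Real.rpow_mul (nrm_nonneg _ _)]
    congr 1; push_cast; ring
  have hq : 0 ≤ ∑ i, ‖a i‖ ^ 2 := sum_nonneg fun _ _ => sq_nonneg _
  calc (DD n m)⁻¹ * ∑ ω : Om n m, ‖∑ i, a i * ((th m (ω i) : ℝ) : 𝕜)‖ ^ s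
      ≤ (DD n m)⁻¹ * (cK s * Fintype.card (Om n m) *
      (dl m * ∑ i, ‖a i‖ ^ s + (dl m * ∑ i, ‖a i‖ ^ 2) ^ (s / 2))) :=
        mul_le_mul_of_nonneg_left h (by positivity)
    _ = cK s * (∑ i, ‖a i‖ ^ s + dl m ^ (s / 2 - 1) * nrm 2 a ^ s) := by
        rw [hX, Real.mul_rpow hd.le hq, Real.rpow_sub_one hd.ne']
        have := (card_Om_pos n m).ne'
        unfold DD
        field_simp

lemma power_mean {α : Type*} [Fintype α] [Nonempty α] {s : ℝ} (hs : 0 < s) (hs2 : s ≤ 2)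
    (x : α → ℝ) (hx : ∀ ω, 0 ≤ x ω) :
    ∑ ω, x ω ^ s ≤ (Fintype.card α : ℝ) ^ (1 - s / 2) * (∑ ω, x ω ^ 2) ^ (s / 2) := by
  have hN : (0:ℝ) < Fintype.card α := by exact_mod_cast Fintype.card_pos
  have h := Real.rpow_arith_mean_le_arith_mean_rpow univ (fun _ : α => (Fintype.card α : ℝ)⁻¹)
    (fun ω => x ω ^ s) (fun _ _ => by positivity) (by simp [card_univ]) 
    (fun ω _ => Real.rpow_nonneg (hx ω) _) (p := 2 / s) (by rw [le_div_iff₀ hs]; linarith)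
  have h2 : ∀ ω, (x ω ^ s) ^ (2 / s) = x ω ^ 2 := by
    intro ω
    rw [← Real.rpow_mul (hx ω), show s * (2 / s) = ((2:ℕ):ℝ) by push_cast; field_simp,
      Real.rpow_natCast]
  simp only [h2, ← mul_sum] at h
  have h0 : 0 ≤ ∑ ω, x ω ^ s := sum_nonneg fun ω _ => Real.rpow_nonneg (hx ω) _
  have h1 : 0 ≤ ∑ ω, x ω ^ 2 := sum_nonneg fun ω _ => sq_nonneg _
  have h3 := Real.rpow_le_rpow (Real.rpow_nonneg (by positivity) _) h (show 0 ≤ s / 2 by positivity)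
  rw [← Real.rpow_mul (by positivity), show 2 / s * (s / 2) = 1 by field_simp, Real.rpow_one,
    Real.mul_rpow (by positivity) h1] at h3
  have h4 := mul_le_mul_of_nonneg_left h3 hN.le
  rw [← mul_assoc, mul_inv_cancel₀ hN.ne', one_mul] at h4
  refine h4.trans (le_of_eq ?_)
  rw [← mul_assoc]
  congr 1
  rw [Real.inv_rpow hN.le, Real.rpow_sub hN, Real.rpow_one]
  field_simp

/-- **(F2)** -/
lemma F2 {s : ℝ} (hs0 : 0 < s) (hs : s ≤ 2) (n m : ℕ) (a : Fin n → 𝕜) :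
    nrm s (K (vec s n m) a) ≤ dl m ^ (1 / 2 - 1 / s) * nrm 2 a := by
  have hD := DD_pos n m
  have hd := dl_pos m
  have hN := card_Om_pos n m
  refine nrm_le hs0 (mul_nonneg (Real.rpow_nonneg hd.le _) (nrm_nonneg _ _)) ?_
  simp only [norm_K_vec hs0]
  rw [← mul_sum]
  have h := power_mean hs0 hs (fun ω : Om n m => ‖∑ i, a i * ((th m (ω i) : ℝ) : 𝕜)‖)
    (fun _ => norm_nonneg _)
  rw [sum_sq_cx] at h
  have hX : nrm 2 a ^ s = (∑ i, ‖a i‖ ^ 2) ^ (s / 2) := by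
    rw [← nrm_two_sq, ← Real.rpow_natCast (nrm 2 a) 2, ← Real.rpow_mul (nrm_nonneg _ _)]
    congr 1; push_cast; ring
  have hq : 0 ≤ ∑ i, ‖a i‖ ^ 2 := sum_nonneg fun _ _ => sq_nonneg _
  refine (mul_le_mul_of_nonneg_left h (by positivity)).trans (le_of_eq ?_)
  rw [Real.mul_rpow (Real.rpow_nonneg hd.le _) (nrm_nonneg _ _), hX, ← Real.rpow_mul hd.le,
    Real.mul_rpow hD.le hq, show (1 / 2 - 1 / s) * s = s / 2 - 1 by field_simp,
    Real.rpow_sub_one hd.ne', ← mul_assoc, ← mul_assoc]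
  congr 1
  unfold DD
  rw [Real.mul_rpow hd.le hN.le, Real.rpow_sub hN, Real.rpow_one]
  have := (Real.rpow_pos_of_pos hN (s / 2)).ne'
  field_simp

lemma nrm_vec {s : ℝ} (hs : 0 < s) (n m : ℕ) (i : Fin n) :
    nrm s (vec (𝕜 := 𝕜) s n m i) = 1 := by
  have hD := DD_pos n m
  have : nrm s (vec (𝕜 := 𝕜) s n m i) ^ s = 1 := by
    rw [nrm_rpow hs]
    have h : ∀ ω : Om n m, ‖(vec s n m i ω : 𝕜)‖ ^ s = (DD n m)⁻¹ * |th m (ω i)| := by
      intro ω
      unfold vec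
      rw [RCLike.norm_ofReal, abs_mul, abs_of_nonneg (Real.rpow_nonneg hD.le _),
        Real.mul_rpow (Real.rpow_nonneg hD.le _) (abs_nonneg _), ← Real.rpow_mul hD.le,
        show -(1 / s) * s = -1 by field_simp, Real.rpow_neg_one]
      congr 1
      rcases th_cases m (ω i) with h | h
      · rw [h, abs_zero, Real.zero_rpow hs.ne']
      · rw [h, Real.one_rpow]
    simp only [h]
    rw [← mul_sum, sum_abs_coord]
    unfold DD at *
    exact inv_mul_cancel₀ hD.ne'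
  have h2 : nrm s (vec (𝕜 := 𝕜) s n m i) ^ s = 1 ^ s := by rw [this, Real.one_rpow]
  exact (Real.rpow_left_inj (nrm_nonneg _ _) zero_le_one hs.ne').mp h2

lemma P_vec {s t : ℝ} (hst : s.HolderConjugate t) (n m : ℕ) (i : Fin n) :
    P (𝕜 := 𝕜) (vec t n m) (vec s n m i) = Pi.single i 1 := by
  have hD := DD_pos n m
  ext j
  rw [P_apply]
  have h : ∀ ω : Om n m, (vec s n m i ω * vec t n m j ω : 𝕜) =
      (((DD n m)⁻¹ * (th m (ω i) * th m (ω j)) : ℝ) : 𝕜) := by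
    intro ω
    unfold vec
    have : DD n m ^ (-(1 / s)) * DD n m ^ (-(1 / t)) = (DD n m)⁻¹ := by
      rw [← Real.rpow_add hD]
      have := hst.inv_add_inv_eq_one
      rw [show -(1 / s) + -(1 / t) = -(s⁻¹ + t⁻¹) by ring, this, Real.rpow_neg_one]
    rw [← this]; push_cast; ring
  simp only [h]
  rw [← RCLike.ofReal_sum, ← mul_sum, sum_th_mul]
  by_cases hij : i = j
  · subst hij
    rw [if_pos rfl, Pi.single_eq_same]
    unfold DD at *
    rw [inv_mul_cancel₀ hD.ne']; simp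
  · rw [if_neg hij, Pi.single_eq_of_ne (Ne.symm hij)]; simp

lemma sum_rpow_le {ι : Type*} [Fintype ι] {s : ℝ} (hs : 2 ≤ s) (u : ι → 𝕜) :
    ∑ i, ‖u i‖ ^ s ≤ nrm 2 u ^ s := by
  rcases eq_or_lt_of_le (nrm_nonneg 2 u) with h0 | h0
  · have : ∀ i, ‖u i‖ = 0 := fun i =>
      le_antisymm ((norm_le_nrm (by norm_num) u i).trans h0.symm.le) (norm_nonneg _)
    simp only [this]
    rw [← h0, Real.zero_rpow (by linarith)]; simp
  · have hsp : nrm 2 u ^ s = nrm 2 u ^ (s - 2) * nrm 2 u ^ 2 := by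
      rw [← Real.rpow_natCast (nrm 2 u) 2, ← Real.rpow_add h0]; congr 1; push_cast; ring
    rw [hsp, nrm_two_sq, mul_sum]
    refine sum_le_sum fun i _ => ?_
    rcases eq_or_lt_of_le (norm_nonneg (u i)) with h1 | h1
    · rw [← h1, Real.zero_rpow (by linarith)]; simp
    · have : ‖u i‖ ^ s = ‖u i‖ ^ (s - 2) * ‖u i‖ ^ 2 := by
        rw [← Real.rpow_natCast (‖u i‖) 2, ← Real.rpow_add h1]; congr 1; push_cast; ring
      rw [this]
      exact mul_le_mul_of_nonneg_right (Real.rpow_le_rpow (norm_nonneg _)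
        (norm_le_nrm (by norm_num) u i) (by linarith)) (sq_nonneg _)

lemma dl_rpow_le_one {m : ℕ} {x : ℝ} (hx : 0 ≤ x) : dl m ^ x ≤ 1 :=
  Real.rpow_le_one (dl_pos m).le (dl_le_one m) hx

lemma bound_two_le {s : ℝ} (hs : 2 ≤ s) (n m : ℕ) (u : Fin n → 𝕜) :
    nrm s (K (vec s n m) u) ≤ (2 * cK s) ^ (1 / s) * nrm 2 u := by
  have hs0 : 0 < s := by linarith
  have hc := cK_nonneg hs
  refine (Real.rpow_le_rpow_iff (nrm_nonneg _ _) (mul_nonneg (Real.rpow_nonneg (by positivity) _)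
    (nrm_nonneg _ _)) hs0).mp ?_
  refine (F1 hs n m u).trans ?_
  rw [Real.mul_rpow (Real.rpow_nonneg (by positivity) _) (nrm_nonneg _ _),
    ← Real.rpow_mul (by positivity), one_div_mul_cancel hs0.ne', Real.rpow_one]
  have h1 := sum_rpow_le hs u
  have h2 : dl m ^ (s / 2 - 1) ≤ 1 := dl_rpow_le_one (by linarith)
  have h3 : 0 ≤ nrm 2 u ^ s := Real.rpow_nonneg (nrm_nonneg _ _) _
  have h4 : dl m ^ (s / 2 - 1) * nrm 2 u ^ s ≤ 1 * nrm 2 u ^ s :=
    mul_le_mul_of_nonneg_right h2 h3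
  calc cK s * (∑ i, ‖u i‖ ^ s + dl m ^ (s / 2 - 1) * nrm 2 u ^ s)
      ≤ cK s * (nrm 2 u ^ s + 1 * nrm 2 u ^ s) :=
        mul_le_mul_of_nonneg_left (add_le_add h1 h4) hc
    _ = 2 * cK s * nrm 2 u ^ s := by ring

lemma flat {s : ℝ} (hs : 2 ≤ s) (n m : ℕ) (u : Fin n → 𝕜) (hu : ∀ i, ‖u i‖ ≤ 1)
    {L : ℝ} (hL0 : 0 < L) (hL : L ≤ nrm 2 u) :
    nrm s (K (vec s n m) u) ≤
      (cK s * (L ^ (2 - s) + dl m ^ (s / 2 - 1))) ^ (1 / s) * nrm 2 u := by
  have hs0 : 0 < s := by linarith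
  have hc := cK_nonneg hs
  have hd := dl_pos m
  have hL1 : 0 ≤ L ^ (2 - s) := Real.rpow_nonneg hL0.le _
  have hd1 : 0 ≤ dl m ^ (s / 2 - 1) := Real.rpow_nonneg hd.le _
  refine (Real.rpow_le_rpow_iff (nrm_nonneg _ _) (mul_nonneg (Real.rpow_nonneg (by positivity) _)
    (nrm_nonneg _ _)) hs0).mp ?_
  refine (F1 hs n m u).trans ?_
  rw [Real.mul_rpow (Real.rpow_nonneg (by positivity) _) (nrm_nonneg _ _),
    ← Real.rpow_mul (by positivity), one_div_mul_cancel hs0.ne', Real.rpow_one]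
  have hX : 0 < nrm 2 u := hL0.trans_le hL
  have h3 : 0 ≤ nrm 2 u ^ s := Real.rpow_nonneg (nrm_nonneg _ _) _
  have h1 : ∑ i, ‖u i‖ ^ s ≤ L ^ (2 - s) * nrm 2 u ^ s := by
    have h5 : ∑ i, ‖u i‖ ^ s ≤ nrm 2 u ^ 2 := by
      rw [nrm_two_sq]
      refine sum_le_sum fun i _ => ?_
      calc ‖u i‖ ^ s ≤ ‖u i‖ ^ (2:ℝ) := by
            rcases eq_or_lt_of_le (norm_nonneg (u i)) with h | h
            · rw [← h, Real.zero_rpow hs0.ne']; simp
            · exact Real.rpow_le_rpow_of_exponent_ge h (hu i) hs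
        _ = _ := by rw [show (2:ℝ) = ((2:ℕ):ℝ) by norm_num, Real.rpow_natCast]
    refine h5.trans ?_
    have h6 : nrm 2 u ^ 2 = nrm 2 u ^ (2 - s) * nrm 2 u ^ s := by
      rw [← Real.rpow_natCast (nrm 2 u) 2, ← Real.rpow_add hX]; congr 1; push_cast; ring
    rw [h6]
    refine mul_le_mul_of_nonneg_right ?_ h3
    exact Real.rpow_le_rpow_of_nonpos hL0 hL (by linarith)
  calc cK s * (∑ i, ‖u i‖ ^ s + dl m ^ (s / 2 - 1) * nrm 2 u ^ s)
      ≤ cK s * (L ^ (2 - s) * nrm 2 u ^ s + dl m ^ (s / 2 - 1) * nrm 2 u ^ s) :=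
        mul_le_mul_of_nonneg_left (by linarith) hc
    _ = _ := by ring

/-- the constant for the Rademacher system -/
noncomputable def cB (s : ℝ) : ℝ := max 1 ((2 * cK s) ^ (1 / s))

lemma one_le_cB (s : ℝ) : 1 ≤ cB s := le_max_left _ _

lemma bound_rad {s : ℝ} (hs : 0 < s) (n : ℕ) (u : Fin n → 𝕜) :
    nrm s (K (vec s n 0) u) ≤ cB s * nrm 2 u := by
  rcases le_total 2 s with h | h
  · exact (bound_two_le h n 0 u).trans
      (mul_le_mul_of_nonneg_right (le_max_right _ _) (nrm_nonneg _ _))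
  · refine (F2 hs h n 0 u).trans (mul_le_mul_of_nonneg_right ?_ (nrm_nonneg _ _))
    rw [dl_zero, Real.one_rpow]; exact one_le_cB s

end Pool.Agent.W685.FS
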